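import Pool.Agent.Y687.Aq
import Pool.Agent.Y687.K2.Main2

/-!
The coefficients at the primes of type A and B.
-/

set_option autoImplicit false
set_option linter.style.haveILetI false

open Finset

namespace Pool.Agent.NH5.AB

open Pool.Agent.Y687
open Pool.Agent.W97.MT (ap E14)

/-- primes split in `ℚ(√2)` and inert in `ℚ(√-7)` -/
def TypA (a : ℕ) : Prop := a.Prime ∧ a % 8 = 1 ∧ (a % 7 = 3 ∨ a % 7 = 5 ∨ a % 7 = 6)

/-- primes inert in `ℚ(√2)`, congruent to one modulo four and split in `ℚ(√-7)` -/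
def TypB (b : ℕ) : Prop := b.Prime ∧ b % 8 = 5 ∧ (b % 7 = 1 ∨ b % 7 = 2 ∨ b % 7 = 4)

section field

variable {F : Type} [Field F] [Fintype F] [DecidableEq F]

/-- the case of a square constant term and a nonsquare discriminant -/
theorem count_A (h2 : (2 : F) ≠ 0) {a c : F} (hc : c ≠ 0) (hd : ¬ IsSquare (a ^ 2 - 4 * c ^ 2)) :
    Nat.card {P : F × F // P.2 ^ 2 = P.1 ^ 3 + a * P.1 ^ 2 + c ^ 2 * P.1} % 4 = 3 := by
  have hb : c ^ 2 ≠ 0 := pow_ne_zero 2 hc
  rw [count_split]
  have h3 : (RT a (c ^ 2)).card = 1 := by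
    have : RT a (c ^ 2) = {0} := by
      unfold RT
      ext x
      simp only [Finset.mem_filter, Finset.mem_univ, true_and, Finset.mem_singleton]
      constructor
      · intro h
        by_contra hx
        apply hd
        have h4 : x ^ 2 + a * x + c ^ 2 = 0 := by
          have : x * (x ^ 2 + a * x + c ^ 2) = 0 := by linear_combination h
          exact (mul_eq_zero.1 this).resolve_left hx
        exact ⟨2 * x + a, by linear_combination -4 * h4⟩
      · rintro rfl
        ring
    rw [this, Finset.card_singleton]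
  have h5 := four_dvd_XX1 (a := a) h2 hb
  have h7 := Finset.card_filter_add_card_filter_not (s := XX a (c ^ 2)) (p := fun P : F × F => P.1 ^ 2 = c ^ 2)
  have h8 : ((XX a (c ^ 2)).filter (fun P => ¬ P.1 ^ 2 = c ^ 2)).card =
    ((XX a (c ^ 2)).filter (fun P => P.1 ^ 2 ≠ c ^ 2)).card := rfl
  -- one of the two numbers `a + 2 c`, `a - 2 c` is a square
  obtain ⟨e, y, he, hee, hy, hne⟩ : ∃ e y : F, e ≠ 0 ∧ e ^ 2 = c ^ 2 ∧ a + 2 * e = y ^ 2 ∧
      ¬ IsSquare (a - 2 * e) := by
    have hc2 : ringChar F ≠ 2 := by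
      intro h
      apply h2
      have := ringChar.spec F 2
      have h3 : ((2 : ℕ) : F) = 0 := this.2 (by rw [h])
      exact_mod_cast h3
    have n1 : a + 2 * c ≠ 0 := by
      intro h
      apply hd
      exact ⟨0, by linear_combination (a - 2 * c) * h⟩
    have n2 : a - 2 * c ≠ 0 := by
      intro h
      apply hd
      exact ⟨0, by linear_combination (a + 2 * c) * h⟩
    have hprod : quadraticChar F (a + 2 * c) * quadraticChar F (a - 2 * c) = -1 := by
      rw [← map_mul]
      have e1 : (a + 2 * c) * (a - 2 * c) = a ^ 2 - 4 * c ^ 2 := by ring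
      rw [e1]
      exact quadraticChar_neg_one_iff_not_isSquare.2 hd
    rcases quadraticChar_dichotomy n1 with h1 | h1 <;> rcases quadraticChar_dichotomy n2 with h4 | h4
    · rw [h1, h4] at hprod; norm_num at hprod
    · obtain ⟨y, hy⟩ := (quadraticChar_one_iff_isSquare n1).1 h1
      exact ⟨c, y, hc, rfl, by rw [hy]; ring, quadraticChar_neg_one_iff_not_isSquare.1 h4⟩
    · obtain ⟨y, hy⟩ := (quadraticChar_one_iff_isSquare n2).1 h4
      refine ⟨-c, y, neg_ne_zero.2 hc, by ring, by linear_combination hy, ?_⟩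
      have e1 : a - 2 * -c = a + 2 * c := by ring
      rw [e1]
      exact quadraticChar_neg_one_iff_not_isSquare.1 h1
    · rw [h1, h4] at hprod; norm_num at hprod
  have hy0 : y ≠ 0 := by
    rintro rfl
    apply hd
    refine ⟨0, ?_⟩
    have : a ^ 2 - 4 * c ^ 2 = (a + 2 * e) * (a - 2 * e) := by linear_combination 4 * hee
    rw [this, hy]; ring
  have h6 : ((XX a (c ^ 2)).filter (fun P => P.1 ^ 2 = c ^ 2)).card = 2 := by
    have h9 : (XX a (c ^ 2)).filter (fun P => P.1 ^ 2 = c ^ 2) = {(e, e * y), (e, -(e * y))} := by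
      ext P
      simp only [Finset.mem_filter, mem_XX, Finset.mem_insert, Finset.mem_singleton]
      constructor
      · rintro ⟨⟨h10, h11⟩, h12⟩
        have hP : P.1 = e ∨ P.1 = -e := by
          have : (P.1 - e) * (P.1 + e) = 0 := by linear_combination h12 - hee
          rcases mul_eq_zero.1 this with h | h
          · left; linear_combination h
          · right; linear_combination h
        rcases hP with hP | hP
        · have : (P.2 - e * y) * (P.2 + e * y) = 0 := by
            rw [hP] at h10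
            linear_combination h10 + e ^ 2 * hy - e * hee
          rcases mul_eq_zero.1 this with h | h
          · left; exact Prod.ext hP (by linear_combination h)
          · right; exact Prod.ext hP (by linear_combination h)
        · exfalso
          apply hne
          refine ⟨P.2 / e, ?_⟩
          rw [div_mul_div_comm, eq_div_iff (mul_ne_zero he he)]
          rw [hP] at h10
          linear_combination -h10 - e * hee
      · rintro (rfl | rfl)
        · refine ⟨⟨?_, mul_ne_zero he hy0⟩, hee⟩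
          simp only
          linear_combination -e ^ 2 * hy + e * hee
        · refine ⟨⟨?_, neg_ne_zero.2 (mul_ne_zero he hy0)⟩, hee⟩
          simp only
          linear_combination -e ^ 2 * hy + e * hee
    rw [h9, Finset.card_pair]
    intro h
    have h10 := congrArg Prod.snd h
    simp only at h10
    have : 2 * (e * y) = 0 := by linear_combination h10
    exact mul_ne_zero h2 (mul_ne_zero he hy0) this
  omega

end field

theorem jac_two {p : ℕ} (hp : p.Prime) (h4 : p % 4 = 1) :
    jacobiSym 2 p = if p % 8 = 1 then 1 else -1 := by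
  haveI : Fact p.Prime := ⟨hp⟩
  have n2 : ((2 : ℤ) : ZMod p) ≠ 0 := by
    have := two_ne hp (by omega : p ≠ 2)
    exact_mod_cast this
  have h1 : jacobiSym 2 p = 1 ↔ p % 8 = 1 := by
    rw [← jacobiSym.legendreSym.to_jacobiSym, legendreSym.eq_one_iff p n2, ← sq_two p h4]
    norm_num
  have h2 : jacobiSym 2 p = 1 ∨ jacobiSym 2 p = -1 := by
    rw [← jacobiSym.legendreSym.to_jacobiSym]
    exact legendreSym.eq_one_or_neg_one p n2
  split_ifs with h
  · exact h1.2 h
  · exact h2.resolve_left fun h3 => h (h1.1 h3)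

theorem jac_seven {p : ℕ} (hp : p.Prime) (h4 : p % 4 = 1) (h7 : p ≠ 7) :
    jacobiSym 7 p = if p % 7 = 1 ∨ p % 7 = 2 ∨ p % 7 = 4 then 1 else -1 := by
  haveI : Fact p.Prime := ⟨hp⟩
  have n7 : ((-7 : ℤ) : ZMod p) ≠ 0 := by
    have := seven_ne hp h7
    push_cast
    exact neg_ne_zero.2 this
  rw [← jac_neg h4]
  have h1 : jacobiSym (-7) p = 1 ↔ (p % 7 = 1 ∨ p % 7 = 2 ∨ p % 7 = 4) := by
    rw [← jacobiSym.legendreSym.to_jacobiSym, legendreSym.eq_one_iff p n7, ← sq_seven p h4 h7]
    norm_num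
  have h2 : jacobiSym (-7) p = 1 ∨ jacobiSym (-7) p = -1 := by
    rw [← jacobiSym.legendreSym.to_jacobiSym]
    exact legendreSym.eq_one_or_neg_one p n7
  split_ifs with h
  · exact h1.2 h
  · exact h2.resolve_left fun h3 => h (h1.1 h3)

theorem jac14_mul (p : ℕ) : jacobiSym 14 p = jacobiSym 2 p * jacobiSym 7 p := by
  rw [← jacobiSym.mul_left]
  norm_num

theorem TypA.jac {a : ℕ} (h : TypA a) :
    jacobiSym 2 a = 1 ∧ jacobiSym 7 a = -1 ∧ jacobiSym 14 a = -1 := by
  obtain ⟨ha, h8, h7⟩ := h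
  have h2 := jac_two ha (by omega)
  have h3 := jac_seven ha (by omega) (by rintro rfl; omega)
  rw [if_pos h8] at h2
  rw [if_neg (by omega)] at h3
  exact ⟨h2, h3, by rw [jac14_mul, h2, h3]; norm_num⟩

theorem TypB.jac {b : ℕ} (h : TypB b) :
    jacobiSym 2 b = -1 ∧ jacobiSym 7 b = 1 ∧ jacobiSym 14 b = -1 := by
  obtain ⟨hb, h8, h7⟩ := h
  have h2 := jac_two hb (by omega)
  have h3 := jac_seven hb (by omega) (by rintro rfl; omega)
  rw [if_neg (by omega)] at h2
  rw [if_pos h7] at h3
  exact ⟨h2, h3, by rw [jac14_mul, h2, h3]; norm_num⟩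

/-- the coefficient at a prime of type B -/
theorem TypB.coef {b : ℕ} (h : TypB b) : (4 : ℤ) ∣ ap E14 b - 2 := by
  obtain ⟨hp, h8, h7⟩ := h
  haveI : Fact b.Prime := ⟨hp⟩
  have h4 : b % 4 = 1 := by omega
  have q7 : b ≠ 7 := by omega
  have n2 := two_ne hp (by omega : b ≠ 2)
  have n7 := seven_ne hp q7
  have h1 := cnt_E14 b hp (by omega) (by
    rintro rfl
    omega)
  have h2 := cnt_model 1 b (by
    rintro rfl
    omega)
  have h3 : cnt (5805 * 1 ^ 2) (-285714 * 1 ^ 3) b = cnt 5805 (-285714) b := by norm_num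
  rw [h3] at h2
  obtain ⟨r, hr⟩ := (sq_seven b h4 q7).2 h7
  have hr0 : r ≠ 0 := by
    rintro rfl
    apply n7
    linear_combination -hr
  have h5 := count_SS (F := ZMod b) n2 (a := 13 * ((1 : ℤ) : ZMod b)) (b := 128 * ((1 : ℤ) : ZMod b) ^ 2)
    (d := 7 * r) ?_ (mul_ne_zero n7 hr0) ?_
  · rw [← h2] at h5
    rw [← h1]
    omega
  · push_cast
    rw [one_pow, mul_one, show (128 : ZMod b) = 2 ^ 7 by norm_num]
    exact pow_ne_zero _ n2
  · push_cast
    linear_combination (49 : ZMod b) * hr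

/-- the coefficient at a prime of type A -/
theorem TypA.coef {a : ℕ} (h : TypA a) : (4 : ℤ) ∣ ap E14 a - 2 := by
  obtain ⟨hp, h8, h7⟩ := h
  haveI : Fact a.Prime := ⟨hp⟩
  have h4 : a % 4 = 1 := by omega
  have q7 : a ≠ 7 := by omega
  have n2 := two_ne hp (by omega : a ≠ 2)
  have n7 := seven_ne hp q7
  have h1 := cnt_E14 a hp (by omega) (by
    rintro rfl
    omega)
  have h2 := cnt_model 1 a (by
    rintro rfl
    omega)
  have h3 : cnt (5805 * 1 ^ 2) (-285714 * 1 ^ 3) a = cnt 5805 (-285714) a := by norm_num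
  rw [h3] at h2
  obtain ⟨r, hr⟩ := (sq_two a h4).2 h8
  have hr0 : r ≠ 0 := by
    rintro rfl
    apply n2
    rw [hr]; ring
  have n8 : (8 : ZMod a) ≠ 0 := by
    rw [show (8 : ZMod a) = 2 ^ 3 by norm_num]; exact pow_ne_zero _ n2
  have h5 := count_A (F := ZMod a) n2 (a := 13 * ((1 : ℤ) : ZMod a)) (c := 8 * r)
    (mul_ne_zero n8 hr0) ?_
  · have e1 : (8 * r) ^ 2 = 128 * ((1 : ℤ) : ZMod a) ^ 2 := by
      push_cast
      linear_combination (-64 : ZMod a) * hr
    rw [e1, ← h2] at h5
    rw [← h1]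
    omega
  · rintro ⟨t, ht⟩
    have : IsSquare (-7 : ZMod a) := by
      refine ⟨t / 7, ?_⟩
      rw [div_mul_div_comm, ← ht, eq_div_iff (mul_ne_zero n7 n7)]
      push_cast
      linear_combination (-256 : ZMod a) * hr
    rw [sq_seven a h4 q7] at this
    omega

end Pool.Agent.NH5.AB
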