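import Pool.Agent.Y687.K2.Grp
import Pool.Agent.Y687.Aq

/-!
The number of units modulo `M` which are odd and have an odd residue modulo `p`.
-/

set_option autoImplicit false
set_option linter.style.haveILetI false

open Finset

open scoped Classical

namespace Pool.Agent.NH5.AB

open Pool.Agent.Y687

theorem oo_two' {M : ℕ} [NeZero M] (hM : M % 2 = 1) (y : ZMod M) :
    oo (2 * y) = if M < 2 * y.val then 1 else 0 := by
  have h2 : (2 * y).val = (2 * y.val) % M := by
    have : (2 : ZMod M) * y = ((2 * y.val : ℕ) : ZMod M) := by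
      push_cast
      rw [ZMod.natCast_zmod_val]
    rw [this, ZMod.val_natCast]
  have hlt := ZMod.val_lt y
  unfold oo
  rw [h2]
  split_ifs with h
  · have h3 : (2 * y.val) % M = 2 * y.val - M := by
      rw [Nat.mod_eq_sub_mod (by omega)]
      exact Nat.mod_eq_of_lt (by omega)
    rw [h3]
    have h4 : ((2 * y.val - M : ℕ) : ZMod 2) = ((1 : ℕ) : ZMod 2) :=
      (ZMod.natCast_eq_natCast_iff' _ _ _).2 (by omega)
    rw [h4]; norm_num
  · have h3 : (2 * y.val) % M = 2 * y.val := Nat.mod_eq_of_lt (by omega)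
    rw [h3]
    have h4 : ((2 * y.val : ℕ) : ZMod 2) = ((0 : ℕ) : ZMod 2) :=
      (ZMod.natCast_eq_natCast_iff' _ _ _).2 (by omega)
    rw [h4]; norm_num

/-- the sign of a residue symbol as an element of `ZMod 2` -/
def hh (p : ℕ) (e : ℤ) : ZMod 2 := if jacobiSym e p = 1 then 0 else 1

/-- Gauss lemma in terms of parities -/
theorem gauss_par {p : ℕ} [Fact p.Prime] (hp4 : p % 4 = 1) {e : ℤ} (he : (e : ZMod p) ≠ 0) :
    ∑ y : ZMod p, oo y * oo ((e : ZMod p) * y) = hh p e := by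
  have hp : p.Prime := Fact.out
  have hp2 : p % 2 = 1 := by omega
  have hpn : p ≠ 2 := by rintro rfl; omega
  have h20 : (2 : ZMod p) ≠ 0 := two_ne hp hpn
  -- multiply by two
  have e1 : ∑ y : ZMod p, oo y * oo ((e : ZMod p) * y) =
      ∑ y : ZMod p, oo (2 * y) * oo (2 * ((e : ZMod p) * y)) := by
    symm
    refine sum_nbij' (fun y => 2 * y) (fun y => y / 2) (fun _ _ => mem_univ _)
      (fun _ _ => mem_univ _) ?_ ?_ ?_
    · intro y _
      show 2 * y / 2 = y
      field_simp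
    · intro y _
      show 2 * (y / 2) = y
      field_simp
    · intro y _
      show oo (2 * y) * oo (2 * ((e : ZMod p) * y)) = oo (2 * y) * oo ((e : ZMod p) * (2 * y))
      rw [mul_left_comm]
  -- change the sign
  have e2 : ∑ y : ZMod p, oo (2 * y) * oo (2 * ((e : ZMod p) * y)) =
      ∑ y : ZMod p, oo (2 * (-y)) * oo (2 * ((e : ZMod p) * (-y))) := by
    refine sum_nbij' (fun y => -y) (fun y => -y) (fun _ _ => mem_univ _)
      (fun _ _ => mem_univ _) (fun y _ => neg_neg y) (fun y _ => neg_neg y) ?_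
    intro y _
    show _ = oo (2 * (- -y)) * oo (2 * ((e : ZMod p) * (- -y)))
    rw [neg_neg]
  have hv : ∀ y : ZMod p, y ≠ 0 → (p < 2 * (-y).val ↔ 2 * y.val ≤ p) := by
    intro y hy
    rw [val_neg' hy]
    have := ZMod.val_lt y
    omega
  have hey : ∀ y : ZMod p, y ≠ 0 → (e : ZMod p) * y ≠ 0 := fun y hy => mul_ne_zero he hy
  have e3 : ∑ y : ZMod p, oo (2 * (-y)) * oo (2 * ((e : ZMod p) * (-y))) =
      ∑ y ∈ Pos p, (1 + if p / 2 < ((e : ZMod p) * y).val then (1 : ZMod 2) else 0) := by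
    rw [← sum_filter_add_sum_filter_not univ (fun y : ZMod p => y ≠ 0 ∧ 2 * y.val ≤ p)]
    have z1 : ∑ y ∈ univ.filter (fun y : ZMod p => ¬ (y ≠ 0 ∧ 2 * y.val ≤ p)),
        oo (2 * (-y)) * oo (2 * ((e : ZMod p) * (-y))) = 0 := by
      refine sum_eq_zero fun y hy => ?_
      rw [mem_filter] at hy
      rw [oo_two' hp2]
      by_cases hy0 : y = 0
      · rw [hy0, neg_zero, ZMod.val_zero, if_neg (by omega), zero_mul]
      · have h1 : ¬ 2 * y.val ≤ p := fun h => hy.2 ⟨hy0, h⟩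
        rw [if_neg fun h => h1 ((hv y hy0).1 h), zero_mul]
    rw [z1, add_zero]
    refine sum_congr rfl fun y hy => ?_
    have hy := mem_Pos.1 hy
    rw [oo_two' hp2, oo_two' hp2, if_pos ((hv y hy.1).2 hy.2), one_mul, mul_neg]
    have h1 := hv _ (hey y hy.1)
    have hone : (1 : ZMod 2) + 1 = 0 := by decide
    by_cases h2 : p / 2 < ((e : ZMod p) * y).val
    · rw [if_pos h2, if_neg fun h => ?_, hone]
      have := h1.1 h
      omega
    · rw [if_neg h2, if_pos (h1.2 (by omega)), add_zero]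
  -- the sum over the first half
  have e4 : ∀ g : ZMod p → ZMod 2, ∑ y ∈ Pos p, g y = ∑ x ∈ Ico 1 (p / 2).succ, g (x : ZMod p) := by
    intro g
    refine sum_nbij' (fun y => y.val) (fun x => (x : ZMod p)) ?_ ?_ ?_ ?_ ?_
    · intro y hy
      rw [mem_Pos] at hy
      have := Nat.pos_of_ne_zero ((ZMod.val_ne_zero y).2 hy.1)
      rw [mem_Ico]
      omega
    · intro x hx
      rw [mem_Ico] at hx
      have hx1 : ((x : ZMod p)).val = x := by
        rw [ZMod.val_natCast, Nat.mod_eq_of_lt (by omega)]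
      rw [mem_Pos, hx1]
      refine ⟨?_, by omega⟩
      intro h0
      rw [h0, ZMod.val_zero] at hx1
      omega
    · intro y _
      exact ZMod.natCast_zmod_val y
    · intro x hx
      rw [mem_Ico] at hx
      show ((x : ZMod p)).val = x
      rw [ZMod.val_natCast, Nat.mod_eq_of_lt (by omega)]
    · intro y _
      show g y = g ((y.val : ℕ) : ZMod p)
      rw [ZMod.natCast_zmod_val]
  rw [e1, e2, e3, e4, sum_add_distrib]
  have c1 : ∑ _x ∈ Ico 1 (p / 2).succ, (1 : ZMod 2) = 0 := by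
    rw [sum_const, Nat.card_Ico, nsmul_eq_mul, mul_one]
    have h4 : (((p / 2).succ - 1 : ℕ) : ZMod 2) = ((0 : ℕ) : ZMod 2) :=
      (ZMod.natCast_eq_natCast_iff' _ _ _).2 (by omega)
    rw [h4]; norm_num
  rw [c1, zero_add, ← sum_filter, sum_const, nsmul_eq_mul, mul_one]
  have hg := ZMod.gauss_lemma hpn he
  unfold hh
  rw [← jacobiSym.legendreSym.to_jacobiSym, hg]
  rcases Nat.even_or_odd ((Ico 1 (p / 2).succ).filter
      (fun x : ℕ => p / 2 < ((e : ZMod p) * (x : ZMod p)).val)).card with h | h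
  · rw [h.neg_one_pow, if_pos rfl]
    obtain ⟨k, hk⟩ := h
    rw [hk]
    push_cast
    exact CharTwo.add_self_eq_zero _
  · rw [h.neg_one_pow, if_neg (by norm_num)]
    obtain ⟨k, hk⟩ := h
    rw [hk]
    push_cast
    have h2 : (2 : ZMod 2) = 0 := by decide
    rw [h2, zero_mul, zero_add]

theorem hh_mul {p : ℕ} [Fact p.Prime] {x y : ℤ} (hx : Int.gcd x p = 1) (hy : Int.gcd y p = 1) :
    hh p (x * y) = hh p x + hh p y := by
  unfold hh
  rw [jacobiSym.mul_left]
  have h1 : ¬ ((-1 : ℤ) = 1) := by norm_num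
  rcases jacobiSym.eq_one_or_neg_one hx with h | h <;> rcases jacobiSym.eq_one_or_neg_one hy with h' | h' <;>
    rw [h, h'] <;> simp [h1]
  decide

/-- a sum over a long interval -/
theorem long_sum {p : ℕ} (hp : p % 2 = 1) (F : ℕ → ZMod 2) (t : ℕ) (ht : t % 4 = 1) :
    ∑ y ∈ range (p * t), F (y % p) * (y : ZMod 2) = ∑ j ∈ range p, F j * (j : ZMod 2) := by
  have hp1 : ((p : ℕ) : ZMod 2) = 1 := by
    have h4 : ((p : ℕ) : ZMod 2) = ((1 : ℕ) : ZMod 2) :=
      (ZMod.natCast_eq_natCast_iff' _ _ _).2 (by omega)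
    rw [h4]; norm_num
  have hp0 : 0 < p := by omega
  obtain ⟨A, hA⟩ : ∃ A, A = ∑ j ∈ range p, F j * (j : ZMod 2) := ⟨_, rfl⟩
  obtain ⟨B, hB⟩ : ∃ B, B = ∑ j ∈ range p, F j := ⟨_, rfl⟩
  have step : ∀ t : ℕ, ∑ y ∈ range (p * (t + 1)), F (y % p) * (y : ZMod 2) =
      ∑ y ∈ range (p * t), F (y % p) * (y : ZMod 2) + (A + (t : ZMod 2) * B) := by
    intro t
    rw [Nat.mul_succ, sum_range_add]
    congr 1
    rw [hA, hB, mul_sum, ← sum_add_distrib]
    refine sum_congr rfl fun j hj => ?_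
    rw [mem_range] at hj
    rw [Nat.mul_add_mod, Nat.mod_eq_of_lt hj]
    push_cast
    rw [hp1]
    ring
  have four : ∀ k : ℕ, ∑ y ∈ range (p * (4 * k)), F (y % p) * (y : ZMod 2) = 0 := by
    intro k
    induction k with
    | zero => simp
    | succ k ih =>
      have e : 4 * (k + 1) = 4 * k + 1 + 1 + 1 + 1 := by ring
      rw [e, step, step, step, step, ih]
      push_cast
      have h2 : (2 : ZMod 2) = 0 := by decide
      linear_combination (2 * A + 8 * (k : ZMod 2) * B + 3 * B) * h2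
  obtain ⟨k, hk⟩ : ∃ k, t = 4 * k + 1 := ⟨t / 4, by omega⟩
  rw [hk, step, four, hA]
  push_cast
  have h4 : (4 : ZMod 2) = 0 := by decide
  rw [h4]
  ring

theorem odd_cast {n : ℕ} (hn : n % 2 = 1) : ((n : ℕ) : ZMod 2) = 1 := by
  have h4 : ((n : ℕ) : ZMod 2) = ((1 : ℕ) : ZMod 2) :=
    (ZMod.natCast_eq_natCast_iff' _ _ _).2 (by omega)
  rw [h4]; norm_num

/-- multiples of `e` -/
theorem mult_sum {p e t : ℕ} [Fact p.Prime] (hp : p % 2 = 1) (he : e % 2 = 1) (ht : t % 4 = 1) :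
    ∑ x ∈ (range (e * (p * t))).filter (fun x => e ∣ x), (((x % p : ℕ)) : ZMod 2) * (x : ZMod 2) =
      ∑ y : ZMod p, oo y * oo (((e : ℤ) : ZMod p) * y) := by
  have he0 : 0 < e := by omega
  have e1 : ∑ x ∈ (range (e * (p * t))).filter (fun x => e ∣ x),
      (((x % p : ℕ)) : ZMod 2) * (x : ZMod 2) =
      ∑ y ∈ range (p * t), ((((e * (y % p)) % p : ℕ)) : ZMod 2) * (y : ZMod 2) := by
    refine sum_nbij' (fun x => x / e) (fun y => e * y) ?_ ?_ ?_ ?_ ?_
    · intro x hx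
      rw [mem_filter, mem_range] at hx
      rw [mem_range]
      exact Nat.div_lt_of_lt_mul hx.1
    · intro y hy
      rw [mem_range] at hy
      rw [mem_filter, mem_range]
      exact ⟨Nat.mul_lt_mul_of_pos_left hy he0, dvd_mul_right _ _⟩
    · intro x hx
      rw [mem_filter] at hx
      exact Nat.mul_div_cancel' hx.2
    · intro y _
      exact Nat.mul_div_cancel_left y he0
    · intro x hx
      rw [mem_filter] at hx
      obtain ⟨y, rfl⟩ := hx.2
      show _ = ((((e * ((e * y / e) % p)) % p : ℕ)) : ZMod 2) * ((e * y / e : ℕ) : ZMod 2)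
      rw [Nat.mul_div_cancel_left y he0, Nat.mul_mod_mod]
      push_cast
      rw [odd_cast he, one_mul]
  rw [e1, long_sum hp (fun j => ((((e * j) % p : ℕ)) : ZMod 2)) t ht]
  haveI : NeZero p := ⟨(Fact.out : p.Prime).ne_zero⟩
  rw [sum_range_zmod (M := p) (fun j => ((((e * j) % p : ℕ)) : ZMod 2) * (j : ZMod 2))]
  refine sum_congr rfl fun y _ => ?_
  show ((((e * y.val) % p : ℕ)) : ZMod 2) * ((y.val : ℕ) : ZMod 2) = oo y * oo (((e : ℤ) : ZMod p) * y)
  unfold oo
  have h1 : ((((e : ℤ) : ZMod p)) * y).val = (e * y.val) % p := by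
    rw [ZMod.val_mul]
    have : (((e : ℤ) : ZMod p)).val = e % p := by
      rw [Int.cast_natCast, ZMod.val_natCast]
    rw [this, Nat.mod_mul_mod]
  rw [h1]
  ring

/-- transport to units -/
theorem sum_rr2 {M : ℕ} [NeZero M] (g : ℕ → ZMod 2) :
    ∑ a ∈ rr M, g a = ∑ u : (ZMod M)ˣ, g (u : ZMod M).val := by
  refine (Finset.sum_bij (fun (u : (ZMod M)ˣ) _ => (u : ZMod M).val) ?_ ?_ ?_ ?_).symm
  · intro u _
    rw [mem_rr]
    exact ⟨ZMod.val_lt _, ZMod.val_coe_unit_coprime u⟩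
  · intro u _ v _ h
    exact Units.ext (ZMod.val_injective M h)
  · intro a ha
    rw [mem_rr] at ha
    refine ⟨ZMod.unitOfCoprime a ha.2, Finset.mem_univ _, ?_⟩
    rw [ZMod.coe_unitOfCoprime, ZMod.val_natCast, Nat.mod_eq_of_lt ha.1]
  · intro u _
    rfl

/-- sieving out the multiples of the primes in `S`, modulo two -/
theorem sieve {S : Finset ℕ} (hS : ∀ q ∈ S, q.Prime) (x : ℕ) :
    (∑ T ∈ S.powerset, if (∏ q ∈ T, q) ∣ x then (1 : ZMod 2) else 0) =
      if ∀ q ∈ S, ¬ q ∣ x then 1 else 0 := by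
  have h1 : ∀ T ∈ S.powerset, (if (∏ q ∈ T, q) ∣ x then (1 : ZMod 2) else 0) =
      ∏ q ∈ T, (if q ∣ x then (1 : ZMod 2) else 0) := by
    intro T hT
    rw [mem_powerset] at hT
    have h2 : (∏ q ∈ T, q) ∣ x ↔ ∀ q ∈ T, q ∣ x := by
      constructor
      · intro h q hq
        exact (Finset.dvd_prod_of_mem (fun q => q) hq).trans h
      · intro h
        exact Finset.prod_primes_dvd x (fun q hq => (hS q (hT hq)).prime) h
    by_cases h : (∏ q ∈ T, q) ∣ x
    · rw [if_pos h]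
      exact (prod_eq_one fun q hq => if_pos (h2.1 h q hq)).symm
    · rw [if_neg h]
      have h3 : ∃ q ∈ T, ¬ q ∣ x := by
        by_contra h4
        push Not at h4
        exact h (h2.2 h4)
      obtain ⟨q, hq, hqx⟩ := h3
      exact (prod_eq_zero hq (if_neg hqx)).symm
  rw [sum_congr rfl h1, ← prod_one_add]
  have hone : (1 : ZMod 2) + 1 = 0 := by decide
  by_cases h : ∀ q ∈ S, ¬ q ∣ x
  · rw [if_pos h]
    refine prod_eq_one fun q hq => ?_
    rw [if_neg (h q hq), add_zero]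
  · rw [if_neg h]
    push Not at h
    obtain ⟨q, hq, hqx⟩ := h
    refine prod_eq_zero hq ?_
    rw [if_pos hqx, hone]

theorem prod_mod4' {S : Finset ℕ} (hS : ∀ q ∈ S, q % 4 = 1) : (∏ q ∈ S, q) % 4 = 1 := by
  induction S using Finset.induction_on with
  | empty => simp
  | insert p S hp ih =>
    rw [Finset.prod_insert hp, Nat.mul_mod, hS p (Finset.mem_insert_self _ _),
      ih fun q hq => hS q (Finset.mem_insert_of_mem hq)]

/-- the number of units which are odd and odd modulo `p` -/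
theorem cnt_main {M p : ℕ} [NeZero M] (hp : p.Prime) (hp4 : p % 4 = 1) (hpM : p ∣ M)
    (S : Finset ℕ) (hS : ∀ q ∈ S, q.Prime ∧ q % 4 = 1) (hpS : p ∉ S) (hM : M = p * ∏ q ∈ S, q) :
    ∑ z ∈ univ.filter (fun z : (ZMod M)ˣ => ol hpM z = 1), ou z =
      ∑ T ∈ S.powerset, hh p ((∏ q ∈ T, q : ℕ) : ℤ) := by
  haveI : Fact p.Prime := ⟨hp⟩
  have hp2 : p % 2 = 1 := by omega
  have h01 : ∀ y : ZMod 2, ¬ y = 1 → y = 0 := by decide
  have s1 : ∑ z ∈ univ.filter (fun z : (ZMod M)ˣ => ol hpM z = 1), ou z =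
      ∑ z : (ZMod M)ˣ, ((((z : ZMod M).val % p : ℕ)) : ZMod 2) * (((z : ZMod M).val : ℕ) : ZMod 2) := by
    rw [sum_filter]
    refine sum_congr rfl fun z _ => ?_
    have h1 : ol hpM z = ((((z : ZMod M).val % p : ℕ)) : ZMod 2) := by
      unfold ol oo
      rw [← rd_val hpM, ZMod.val_natCast]
    rw [← h1]
    have h2 : ou z = (((z : ZMod M).val : ℕ) : ZMod 2) := rfl
    rw [← h2]
    split_ifs with h
    · rw [h, one_mul]
    · rw [h01 _ h, zero_mul]
  rw [s1, ← sum_rr2 (M := M) (fun x => (((x % p : ℕ)) : ZMod 2) * (x : ZMod 2))]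
  unfold rr
  rw [sum_filter]
  have s2 : ∀ x ∈ range M, (if Nat.Coprime x M then (((x % p : ℕ)) : ZMod 2) * (x : ZMod 2) else 0) =
      ∑ T ∈ S.powerset, (if (∏ q ∈ T, q) ∣ x then (((x % p : ℕ)) : ZMod 2) * (x : ZMod 2) else 0) := by
    intro x _
    have h1 : ∑ T ∈ S.powerset, (if (∏ q ∈ T, q) ∣ x then (((x % p : ℕ)) : ZMod 2) * (x : ZMod 2) else 0) =
        (∑ T ∈ S.powerset, if (∏ q ∈ T, q) ∣ x then (1 : ZMod 2) else 0) *
          ((((x % p : ℕ)) : ZMod 2) * (x : ZMod 2)) := by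
      rw [sum_mul]
      refine sum_congr rfl fun T _ => ?_
      split_ifs <;> simp
    rw [h1, sieve fun q hq => (hS q hq).1]
    by_cases hpx : p ∣ x
    · rw [Nat.mod_eq_zero_of_dvd hpx]
      simp
    · have h2 : Nat.Coprime x M ↔ ∀ q ∈ S, ¬ q ∣ x := by
        rw [hM, Nat.coprime_mul_iff_right]
        constructor
        · rintro ⟨_, h3⟩ q hq hqx
          have h4 := Nat.Coprime.eq_one_of_dvd (Nat.Coprime.coprime_dvd_left hqx h3) (dpm hq)
          exact (hS q hq).1.one_lt.ne' h4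
        · intro h3
          refine ⟨((Nat.Prime.coprime_iff_not_dvd hp).2 hpx).symm, ?_⟩
          exact Nat.Coprime.prod_right fun q hq =>
            ((Nat.Prime.coprime_iff_not_dvd (hS q hq).1).2 (h3 q hq)).symm
      by_cases h3 : Nat.Coprime x M
      · rw [if_pos h3, if_pos (h2.1 h3), one_mul]
      · rw [if_neg h3, if_neg fun h => h3 (h2.2 h), zero_mul]
  rw [sum_congr rfl s2, sum_comm]
  refine sum_congr rfl fun T hT => ?_
  rw [mem_powerset] at hT
  rw [← sum_filter]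
  have hTS := Finset.prod_sdiff (f := fun q : ℕ => q) hT
  have hM' : M = (∏ q ∈ T, q) * (p * ∏ q ∈ S \ T, q) := by
    rw [hM, ← hTS]
    ring
  have m1 := prod_mod4' (S := T) fun q hq => (hS q (hT hq)).2
  have m2 := prod_mod4' (S := S \ T) fun q hq => (hS q (mem_sdiff.1 hq).1).2
  rw [hM', mult_sum hp2 (by omega) m2]
  refine gauss_par hp4 ?_
  rw [Ne, ZMod.intCast_zmod_eq_zero_iff_dvd, Int.natCast_dvd_natCast]
  intro h
  obtain ⟨q, hq, hpq⟩ := (Prime.dvd_finsetProd_iff hp.prime _).1 h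
  have := (Nat.prime_dvd_prime_iff_eq hp (hS q (hT hq)).1).1 hpq
  exact hpS (this ▸ hT hq)

/-- evaluation for two primes -/
theorem cnt_two {M p b : ℕ} [NeZero M] (hp : p.Prime) (hp4 : p % 4 = 1) (hpM : p ∣ M)
    (hb : b.Prime) (hb4 : b % 4 = 1) (hpb : p ≠ b) (hM : M = p * b) :
    ∑ z ∈ univ.filter (fun z : (ZMod M)ˣ => ol hpM z = 1), ou z = hh p b := by
  have h := cnt_main hp hp4 hpM {b} (by
    intro q hq
    rw [mem_singleton] at hq
    subst hq
    exact ⟨hb, hb4⟩) (by rw [mem_singleton]; exact hpb) (by rw [prod_singleton]; exact hM)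
  rw [h]
  have h1 : ({b} : Finset ℕ).powerset = {∅, {b}} := by
    ext T
    simp [Finset.subset_singleton_iff]
  rw [h1, sum_pair (by simp)]
  simp only [prod_empty, prod_singleton]
  have h2 : hh p ((1 : ℕ) : ℤ) = 0 := by
    unfold hh
    simp
  rw [h2, zero_add]

/-- evaluation for at least three primes -/
theorem cnt_many {M p : ℕ} [NeZero M] (hp : p.Prime) (hp4 : p % 4 = 1) (hpM : p ∣ M)
    (S : Finset ℕ) (hS : ∀ q ∈ S, q.Prime ∧ q % 4 = 1) (hpS : p ∉ S) (hM : M = p * ∏ q ∈ S, q)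
    (hc : 2 ≤ S.card) :
    ∑ z ∈ univ.filter (fun z : (ZMod M)ˣ => ol hpM z = 1), ou z = 0 := by
  haveI : Fact p.Prime := ⟨hp⟩
  rw [cnt_main hp hp4 hpM S hS hpS hM]
  have gp : ∀ T : Finset ℕ, T ⊆ S → Int.gcd ((∏ q ∈ T, q : ℕ) : ℤ) p = 1 := by
    intro T hT
    rw [Int.gcd_natCast_natCast]
    refine Nat.Coprime.prod_left fun q hq => ?_
    rw [Nat.coprime_primes (hS q (hT hq)).1 hp]
    rintro rfl
    exact hpS (hT hq)
  obtain ⟨r, hr⟩ : S.Nonempty := Finset.card_pos.1 (by omega)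
  obtain ⟨S', hS'⟩ : ∃ S', S' = S.erase r := ⟨_, rfl⟩
  have hrS' : r ∉ S' := by rw [hS']; exact notMem_erase r S
  have hins : S = insert r S' := by rw [hS', insert_erase hr]
  have hSS : S' ⊆ S := by rw [hS']; exact erase_subset _ _
  have hc' : 1 ≤ S'.card := by
    rw [hS', card_erase_of_mem hr]; omega
  have hgr : Int.gcd ((r : ℕ) : ℤ) p = 1 := by
    rw [Int.gcd_natCast_natCast]
    refine (Nat.coprime_primes (hS r hr).1 hp).2 ?_
    rintro rfl
    exact hpS hr
  rw [hins, sum_powerset_insert hrS', ← sum_add_distrib]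
  have h1 : ∀ T ∈ S'.powerset, hh p ((∏ q ∈ T, q : ℕ) : ℤ) + hh p ((∏ q ∈ insert r T, q : ℕ) : ℤ) =
      hh p r := by
    intro T hT
    rw [mem_powerset] at hT
    rw [prod_insert fun h => hrS' (hT h)]
    push_cast
    have h2 := gp T (hT.trans hSS)
    push_cast at h2
    rw [hh_mul hgr h2]
    have h2 : (2 : ZMod 2) = 0 := by decide
    linear_combination (hh p (∏ q ∈ T, (q : ℤ))) * h2
  rw [sum_congr rfl h1, sum_const, card_powerset]
  obtain ⟨k, hk⟩ : ∃ k, S'.card = k + 1 := ⟨S'.card - 1, by omega⟩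
  rw [hk, pow_succ, nsmul_eq_mul]
  push_cast
  have h2 : (2 : ZMod 2) = 0 := by decide
  rw [h2]
  ring

end Pool.Agent.NH5.AB
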