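import Pool.Agent.NH5.AB.Rec
import Pool.Agent.Y687.K2.DescAB
import Pool.Agent.Y687.K2.RankForm

/-!
The rank form of BSD for the twists of `X_0(14)` by `a b m`.
-/

set_option autoImplicit false
set_option linter.style.haveILetI false

open Finset

namespace Pool.Agent.NH5.AB

open Pool.Agent.Y687
open Pool.Agent.W97.MT (ap E14)

theorem jac_m7 {p : ℕ} (h4 : p % 4 = 1) : jacobiSym (-7) p = jacobiSym 7 p := jac_neg h4 7

theorem Inert.jac {q : ℕ} (h : Inert q) : jacobiSym 2 q = -1 ∧ jacobiSym (-7) q = -1 := by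
  obtain ⟨hq, h8, h7⟩ := h
  have h2 := jac_two hq (by omega)
  have h3 := jac_seven hq (by omega) (by rintro rfl; omega)
  rw [if_neg (by omega)] at h2
  rw [if_neg (by omega)] at h3
  exact ⟨h2, by rw [jac_m7 (by omega), h3]⟩

variable {a b : ℕ} {S : Finset ℕ}

theorem typ_ne (ha : TypA a) (hb : TypB b) : a ≠ b := by
  rintro rfl
  have h1 := ha.2.1
  have h2 := hb.2.1
  omega

theorem typA_notMem (ha : TypA a) (hS : ∀ q ∈ S, Inert q) : a ∉ S := fun h => by
  have h1 := (hS a h).2.1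
  have h2 := ha.2.1
  omega

theorem typB_notMem (hb : TypB b) (hS : ∀ q ∈ S, Inert q) : b ∉ S := fun h => by
  have h1 := (hS b h).2.2
  have h2 := hb.2.2
  omega

theorem hypAB (ha : TypA a) (hb : TypB b) (hS : ∀ q ∈ S, Inert q) (hj : jacobiSym a b = -1) :
    HypAB (∏ q ∈ S, q) a b := by
  have a8 := ha.2.1
  have b8 := hb.2.1
  refine HypAB.of_jacobi ha.1 hb.1 (fun q hq => (hS q hq).1) (typ_ne ha hb) (typA_notMem ha hS)
    (typB_notMem hb hS) (by omega) (by omega) (fun q hq => by have := (hS q hq).2.1; omega)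
    ha.jac.1 ?_ hb.jac.1 ?_ (fun q hq => (Inert.jac (hS q hq)).1)
    (fun q hq => (Inert.jac (hS q hq)).2) hj
  · rw [jac_m7 (by omega)]
    exact ha.jac.2.1
  · rw [jac_m7 (by omega)]
    exact hb.jac.2.1

/-- the arithmetic of the conductor -/
theorem arith (ha : TypA a) (hb : TypB b) (hS : ∀ q ∈ S, Inert q) :
    (∏ q ∈ insert a (insert b S), q) = a * b * ∏ q ∈ S, q ∧ Squarefree (a * b * ∏ q ∈ S, q) ∧
      (a * b * ∏ q ∈ S, q) % 4 = 1 ∧ 1 < a * b * ∏ q ∈ S, q ∧
      Nat.Coprime (a * b * ∏ q ∈ S, q) 42 := by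
  have hab := typ_ne ha hb
  have haS := typA_notMem ha hS
  have hbS := typB_notMem hb hS
  have h12 : a ∉ insert b S := by
    rw [Finset.mem_insert, not_or]
    exact ⟨hab, haS⟩
  have e : (∏ q ∈ insert a (insert b S), q) = a * b * ∏ q ∈ S, q := by
    rw [prod_insert h12, prod_insert hbS]
    ring
  have key : ∀ q ∈ insert a (insert b S), q.Prime ∧ q % 4 = 1 ∧ q ≠ 7 := by
    intro q hq
    rw [mem_insert, mem_insert] at hq
    rcases hq with rfl | rfl | hq
    · exact ⟨ha.1, by have := ha.2.1; omega, by have := ha.2.1; omega⟩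
    · exact ⟨hb.1, by have := hb.2.1; omega, by have := hb.2.1; omega⟩
    · exact ⟨(hS q hq).1, by have := (hS q hq).2.1; omega, by have := (hS q hq).2.1; omega⟩
  refine ⟨e, ?_, ?_, ?_, ?_⟩
  · rw [← e]
    exact squarefree_prod fun q hq => (key q hq).1
  · rw [← e]
    exact prod_mod4' fun q hq => (key q hq).2.1
  · have h1 := ha.1.one_lt
    have h2 := hb.1.pos
    have h3 : 0 < ∏ q ∈ S, q := prod_pos fun q hq => (hS q hq).1.pos
    have h4 : a * 1 * 1 ≤ a * b * ∏ q ∈ S, q :=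
      Nat.mul_le_mul (Nat.mul_le_mul_left _ h2) h3
    omega
  · rw [← e, Nat.coprime_comm]
    refine Nat.Coprime.prod_right fun q hq => ?_
    obtain ⟨h1, h2, h3⟩ := key q hq
    rw [show (42 : ℕ) = 2 * 3 * 7 by norm_num]
    exact Nat.Coprime.mul_left (Nat.Coprime.mul_left
      ((Nat.coprime_primes Nat.prime_two h1).2 (by omega))
      ((Nat.coprime_primes Nat.prime_three h1).2 (by omega)))
      ((Nat.coprime_primes (by norm_num) h1).2 (Ne.symm h3))

theorem jac_symm (ha : TypA a) (hb : TypB b) : jacobiSym b a = jacobiSym a b := by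
  have a8 := ha.2.1
  have b8 := hb.2.1
  exact jacobiSym.quadratic_reciprocity_one_mod_four (by omega) (Nat.odd_iff.2 (by omega))

/-- the rank form of BSD -/
theorem main (ha : TypA a) (hb : TypB b) (hS : ∀ q ∈ S, Inert q) (hj : jacobiSym a b = -1) :
    RankBSD (5805 * ((a * b * ∏ q ∈ S, q : ℕ) : ℤ) ^ 2)
      (-285714 * ((a * b * ∏ q ∈ S, q : ℕ) : ℤ) ^ 3) := by
  obtain ⟨e1, hsq, hM4, hgt, h42⟩ := arith ha hb hS
  obtain ⟨s, Op, hOp, hsym, hs⟩ := exists_symb2
  have hne := sumAB_ne hsym ha hb (by rw [jac_symm ha hb, hj]; norm_num) hS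
  rw [e1] at hne
  obtain ⟨f, hf, hp, h1⟩ := exists_f_ne _ (Nat.odd_iff.2 (by omega)) hsq hgt hM4 h42 hOp hs hne
  exact rankBSD hf hp h1 (hypAB ha hb hS hj).finite_set

end Pool.Agent.NH5.AB
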