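import Pool.Agent.Z702.LocZ
import Pool.Agent.NH5.AB.Main

/-!
# Local points for the class of `a` if `a` is a square modulo `b`
-/

set_option autoImplicit false
set_option linter.style.haveILetI false

namespace Pool.Agent.NH5.AB

open Finset

open Pool.Agent.Z702 (LocI S_LQ S_LG padic_sq padic_sq2)
open Pool.Agent.Y687 (Inert)

section

open Polynomial

/-- Hensel's lemma for squares of units -/
theorem unit_sq_padic {p : ℕ} [hp : Fact p.Prime] (hp2 : p ≠ 2) {u : ℤ_[p]} (hu : ‖u‖ = 1)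
    (h : IsSquare (PadicInt.toZMod u)) : ∃ z : ℤ_[p], u = z ^ 2 := by
  obtain ⟨a, ha⟩ := h
  obtain ⟨s, hs⟩ := ZMod.intCast_surjective a
  have hlt : ∀ w : ℤ_[p], PadicInt.toZMod w = 0 → ‖w‖ < 1 := by
    intro w hw
    have h3 : w ∈ RingHom.ker (PadicInt.toZMod (p := p)) := hw
    rw [PadicInt.ker_toZMod, IsLocalRing.mem_maximalIdeal, mem_nonunits_iff,
      PadicInt.isUnit_iff] at h3
    exact lt_of_le_of_ne (PadicInt.norm_le_one _) h3
  have h0 : PadicInt.toZMod u ≠ 0 := by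
    intro h0
    have := hlt u h0
    rw [hu] at this
    exact lt_irrefl _ this
  have ha0 : a ≠ 0 := by
    rintro rfl
    apply h0
    rw [ha]; ring
  have h1 : ‖(s : ℤ_[p]) ^ 2 - u‖ < 1 := by
    apply hlt
    rw [map_sub, map_pow, map_intCast, hs, ha]
    ring
  have h2 : ‖((2 * s : ℤ) : ℤ_[p])‖ = 1 := by
    have h5 : ¬ ‖((2 * s : ℤ) : ℤ_[p])‖ < 1 := by
      rw [PadicInt.norm_intCast_lt_one_iff]
      intro h2
      have hpi : Prime (p : ℤ) := Nat.prime_iff_prime_int.1 hp.out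
      rcases hpi.dvd_or_dvd h2 with h3 | h3
      · have h5 : p ∣ 2 := by exact_mod_cast h3
        exact hp2 ((Nat.prime_dvd_prime_iff_eq hp.out Nat.prime_two).1 h5)
      · apply ha0
        rw [← hs, ZMod.intCast_zmod_eq_zero_iff_dvd]
        exact h3
    exact le_antisymm (PadicInt.norm_le_one _) (not_lt.1 h5)
  have e1 : ∀ w : ℤ_[p], (aeval w) (X ^ 2 - C u : ℤ_[p][X]) = w ^ 2 - u := by
    intro w; simp
  have e2 : ∀ w : ℤ_[p], (aeval w) (derivative (X ^ 2 - C u : ℤ_[p][X])) = 2 * w := by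
    intro w; simp; norm_num
  obtain ⟨z, hz, -⟩ := hensels_lemma (p := p) (R := ℤ_[p]) (F := X ^ 2 - C u)
    (a := (s : ℤ_[p])) (by
      rw [e1, e2]
      push_cast at h2
      rw [h2]
      simpa using h1)
  rw [e1] at hz
  exact ⟨z, (sub_eq_zero.1 hz).symm⟩

end

theorem unit_of_toZMod {p : ℕ} [hp : Fact p.Prime] {u : ℤ_[p]} (h : PadicInt.toZMod u ≠ 0) :
    ‖u‖ = 1 := by
  by_contra h1
  apply h
  have h3 : u ∈ RingHom.ker (PadicInt.toZMod (p := p)) := by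
    rw [PadicInt.ker_toZMod, IsLocalRing.mem_maximalIdeal, mem_nonunits_iff, PadicInt.isUnit_iff]
    exact h1
  exact h3

/-- the place `a` -/
theorem loc_a {a : ℕ} [hp : Fact a.Prime] (a8 : a % 8 = 1) (n7 : a ≠ 7)
    (h7 : ¬ IsSquare (-7 : ZMod a)) {M' : ℤ} (hM' : ¬ (a : ℤ) ∣ M') :
    LocI ℚ_[a] (13 * (a * M')) (128 * (a * M') ^ 2) a := by
  have a2 : a ≠ 2 := by rintro rfl; omega
  have hM0 : (M' : ZMod a) ≠ 0 := by
    rw [Ne, ZMod.intCast_zmod_eq_zero_iff_dvd]; exact hM'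
  have n7' : (7 : ZMod a) ≠ 0 := Pool.Agent.Y687.seven_ne hp.out n7
  -- the square root of two
  obtain ⟨t, ht⟩ : ∃ t : ℤ_[a], (2 : ℤ_[a]) = t ^ 2 := by
    have h2 : PadicInt.toZMod (2 : ℤ_[a]) = 2 := map_ofNat _ 2
    refine unit_sq_padic a2 (unit_of_toZMod ?_) ?_
    · rw [h2]
      exact Pool.Agent.Y687.two_ne hp.out a2
    · rw [h2]
      exact (ZMod.exists_sq_eq_two_iff a2).2 (Or.inl a8)
  obtain ⟨τ, hτ⟩ : ∃ τ : ZMod a, τ = PadicInt.toZMod t := ⟨_, rfl⟩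
  have hτ2 : (2 : ZMod a) = τ ^ 2 := by
    have h2 : PadicInt.toZMod (2 : ℤ_[a]) = 2 := map_ofNat _ 2
    have := congrArg (PadicInt.toZMod (p := a)) ht
    rw [h2, map_pow, ← hτ] at this
    exact this
  have hprod : (M' * (13 + 16 * τ)) * (M' * (13 - 16 * τ)) = -7 * (7 * (M' : ZMod a)) ^ 2 := by
    linear_combination (256 * (M' : ZMod a) ^ 2) * hτ2
  have hns : ¬ IsSquare (-7 * (7 * (M' : ZMod a)) ^ 2) := by
    rintro ⟨r, hr⟩
    apply h7
    have h70 : (7 * (M' : ZMod a)) ≠ 0 := mul_ne_zero n7' hM0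
    refine ⟨r / (7 * M'), ?_⟩
    rw [div_mul_div_comm, eq_div_iff (mul_ne_zero h70 h70), ← hr]
    ring
  -- one of the two factors is a square
  obtain ⟨e, he2, hs⟩ : ∃ e : ℤ_[a], (2 : ℤ_[a]) = e ^ 2 ∧
      IsSquare (PadicInt.toZMod ((M' : ℤ_[a]) * (13 + 16 * e))) := by
    have key : IsSquare ((M' : ZMod a) * (13 + 16 * τ)) ∨ IsSquare ((M' : ZMod a) * (13 - 16 * τ)) := by
      by_contra hcon
      push Not at hcon
      apply hns
      rw [← hprod]
      have hc : ringChar (ZMod a) ≠ 2 := by rw [ZMod.ringChar_zmod_n]; exact a2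
      have q1 := quadraticChar_neg_one_iff_not_isSquare.2 hcon.1
      have q2 := quadraticChar_neg_one_iff_not_isSquare.2 hcon.2
      have h0 : ((M' : ZMod a) * (13 + 16 * τ)) * (M' * (13 - 16 * τ)) ≠ 0 := by
        rw [hprod]
        intro h0
        exact hns ⟨0, by rw [h0]; ring⟩
      refine (quadraticChar_one_iff_isSquare h0).1 ?_
      rw [map_mul, q1, q2]
      norm_num
    have c13 : PadicInt.toZMod (13 : ℤ_[a]) = 13 := map_ofNat _ 13
    have c16 : PadicInt.toZMod (16 : ℤ_[a]) = 16 := map_ofNat _ 16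
    rcases key with h | h
    · refine ⟨t, ht, ?_⟩
      rw [map_mul, map_add, map_mul, map_intCast, c13, c16, ← hτ]
      exact h
    · refine ⟨-t, by rw [neg_sq]; exact ht, ?_⟩
      rw [map_mul, map_add, map_mul, map_neg, map_intCast, c13, c16, ← hτ]
      have e1 : (M' : ZMod a) * (13 + 16 * -τ) = M' * (13 - 16 * τ) := by ring
      rw [e1]
      exact h
  have hunit : ‖(M' : ℤ_[a]) * (13 + 16 * e)‖ = 1 := by
    apply unit_of_toZMod
    intro h0
    have h1 : PadicInt.toZMod ((M' : ℤ_[a]) * (13 + 16 * e) * ((M' : ℤ_[a]) * (13 - 16 * e))) = 0 := by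
      rw [map_mul, h0, zero_mul]
    have h2 : (M' : ℤ_[a]) * (13 + 16 * e) * ((M' : ℤ_[a]) * (13 - 16 * e)) =
        ((-7 * (7 * M') ^ 2 : ℤ) : ℤ_[a]) := by
      push_cast
      linear_combination (256 * (M' : ℤ_[a]) ^ 2) * he2
    rw [h2, map_intCast] at h1
    apply hns
    refine ⟨0, ?_⟩
    push_cast at h1
    rw [h1]; ring
  obtain ⟨z, hz⟩ := unit_sq_padic a2 hunit hs
  have hz' : ((M' : ℚ_[a]) * (13 + 16 * (e : ℚ_[a]))) = (z : ℚ_[a]) ^ 2 := by
    have := congrArg (fun w : ℤ_[a] => (w : ℚ_[a])) hz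
    push_cast at this
    exact this
  have he' : (2 : ℚ_[a]) = (e : ℚ_[a]) ^ 2 := by
    have := congrArg (fun w : ℤ_[a] => (w : ℚ_[a])) he2
    push_cast at this
    exact this
  have ha0 : (a : ℚ_[a]) ≠ 0 := by exact_mod_cast hp.out.ne_zero
  have hz0 : (z : ℚ_[a]) ^ 2 ≠ 0 := by
    have : z ≠ 0 := by
      rintro rfl
      rw [hz] at hunit
      simp at hunit
    have h3 : (z : ℚ_[a]) ≠ 0 := by
      intro h
      exact this (Subtype.ext h)
    exact pow_ne_zero 2 h3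
  refine ⟨(a : ℚ_[a]) * (z : ℚ_[a]) ^ 2, 0, z, mul_ne_zero ha0 hz0, ?_, by push_cast; rfl⟩
  rw [← hz']
  push_cast
  linear_combination (256 * (a : ℚ_[a]) ^ 3 * (M' : ℚ_[a]) ^ 3 * (13 + 16 * (e : ℚ_[a]))) * he'

theorem dec7 : ∀ A M : ZMod 7, (A = 3 ∨ A = 5 ∨ A = 6) → M ≠ 0 →
    ∃ r : ZMod 7, (A * r ^ 2) * ((A * r ^ 2) ^ 2 - 26 * M * (A * r ^ 2) - 343 * M ^ 2) ≠ 0 ∧
      IsSquare ((A * r ^ 2) * ((A * r ^ 2) ^ 2 - 26 * M * (A * r ^ 2) - 343 * M ^ 2)) := by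
  decide

/-- the place seven -/
theorem loc_7 [Fact (Nat.Prime 7)] {a : ℕ} (h7 : a % 7 = 3 ∨ a % 7 = 5 ∨ a % 7 = 6) {M : ℤ}
    (hM : ¬ (7 : ℤ) ∣ M) : LocI ℚ_[7] (13 * M) (128 * M ^ 2) a := by
  have hM0 : (M : ZMod 7) ≠ 0 := by
    rw [Ne, ZMod.intCast_zmod_eq_zero_iff_dvd]; exact_mod_cast hM
  have hA : ((a : ℤ) : ZMod 7) = 3 ∨ ((a : ℤ) : ZMod 7) = 5 ∨ ((a : ℤ) : ZMod 7) = 6 := by
    have e : ((a : ℤ) : ZMod 7) = (((a % 7 : ℕ)) : ZMod 7) := by
      rw [Int.cast_natCast, ZMod.natCast_mod]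
    rw [e]
    rcases h7 with h | h | h
    · rw [h]; left; norm_num
    · rw [h]; right; left; norm_num
    · rw [h]; right; right; norm_num
  obtain ⟨r, hr0, hr⟩ := dec7 _ _ hA hM0
  obtain ⟨s, rfl⟩ := ZMod.intCast_surjective r
  obtain ⟨X, hX⟩ : ∃ X : ℤ, X = a * s ^ 2 := ⟨_, rfl⟩
  obtain ⟨N, hN⟩ : ∃ N : ℤ, N = X * (X ^ 2 - 26 * M * X - 343 * M ^ 2) := ⟨_, rfl⟩
  have hNc : (N : ZMod 7) = ((a : ℤ) : ZMod 7) * (s : ZMod 7) ^ 2 *
      ((((a : ℤ) : ZMod 7) * (s : ZMod 7) ^ 2) ^ 2 - 26 * (M : ZMod 7) *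
        (((a : ℤ) : ZMod 7) * (s : ZMod 7) ^ 2) - 343 * (M : ZMod 7) ^ 2) := by
    rw [hN, hX]
    push_cast
    ring
  have hN0 : ¬ ((7 : ℕ) : ℤ) ∣ N := by
    rw [← ZMod.intCast_zmod_eq_zero_iff_dvd, hNc]
    exact hr0
  obtain ⟨y, hy⟩ := padic_sq (p := 7) (by norm_num) hN0 (by rw [hNc]; exact hr)
  have hX0 : (X : ℚ_[7]) ≠ 0 := by
    have : X ≠ 0 := by
      rintro h
      apply hN0
      rw [hN, h]
      simp
    exact_mod_cast this
  refine ⟨X, y, s, hX0, ?_, ?_⟩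
  · rw [pow_two y, ← hy, hN]
    push_cast
    ring
  · rw [hX]
    push_cast
    ring

/-- **local points everywhere** -/
theorem loc_all (hq : S_LQ) (hg : S_LG) {a b : ℕ} {S : Finset ℕ} (ha : TypA a) (hb : TypB b)
    (hS : ∀ q ∈ S, Inert q) (hj : jacobiSym a b = 1) :
    (∀ (l : ℕ) [Fact l.Prime], LocI ℚ_[l] (13 * ((a * b * ∏ q ∈ S, q : ℕ) : ℤ))
      (128 * ((a * b * ∏ q ∈ S, q : ℕ) : ℤ) ^ 2) a) ∧
    LocI ℝ (13 * ((a * b * ∏ q ∈ S, q : ℕ) : ℤ))
      (128 * ((a * b * ∏ q ∈ S, q : ℕ) : ℤ) ^ 2) a := by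
  obtain ⟨e0, hsq, hM4, hgt, h42⟩ := arith ha hb hS
  obtain ⟨M, hM⟩ : ∃ M : ℤ, M = ((a * b * ∏ q ∈ S, q : ℕ) : ℤ) := ⟨_, rfl⟩
  have hMpos : 0 < M := by rw [hM]; exact_mod_cast (by omega)
  rw [← hM]
  have hM2 : 0 < M ^ 2 := by positivity
  have hb0 : (128 * M ^ 2 : ℤ) ≠ 0 := by positivity
  have hab : (13 * M) ^ 2 - 4 * (128 * M ^ 2) ≠ 0 := by nlinarith
  have hapos := ha.1.pos
  have hd0 : (a : ℤ) ≠ 0 := by exact_mod_cast hapos.ne'
  have a8 := ha.2.1
  have b8 := hb.2.1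
  have haM : M = a * ((b * ∏ q ∈ S, q : ℕ) : ℤ) := by rw [hM]; push_cast; ring
  obtain ⟨q1, q2⟩ := hq (13 * M) (128 * M ^ 2) a hb0 hab hd0
  refine ⟨fun l hl => ?_, q2 (by exact_mod_cast hapos)⟩
  by_cases l2 : l = 2
  · subst l2
    exact q1 2 (Or.inl (padic_sq2 (by omega)))
  by_cases l7 : l = 7
  · subst l7
    refine loc_7 ha.2.2 ?_
    intro h
    have h1 : 7 ∣ a * b * ∏ q ∈ S, q := by
      rw [hM] at h
      exact_mod_cast h
    have h2 := Nat.Coprime.eq_one_of_dvd (Nat.Coprime.coprime_dvd_left h1 h42) (by norm_num)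
    omega
  by_cases la : l = a
  · subst la
    have h7 : ¬ IsSquare (-7 : ZMod l) := by
      rw [Pool.Agent.Y687.sq_seven l (by omega) l7]
      have := ha.2.2
      omega
    rw [haM]
    refine loc_a a8 l7 h7 ?_
    rintro ⟨k, hk⟩
    have h1 := Int.squarefree_natCast.2 hsq
    rw [← hM, haM, hk] at h1
    have h2 := h1 l ⟨k, by ring⟩
    exact (Nat.prime_iff_prime_int.1 ha.1).not_isUnit h2
  have hla : ¬ (l : ℤ) ∣ (a : ℤ) := by
    rw [Int.natCast_dvd_natCast]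
    intro h
    exact la ((Nat.prime_dvd_prime_iff_eq hl.out ha.1).1 h)
  by_cases lM : (l : ℤ) ∣ M
  · have l4 : l % 4 = 1 ∧ (l = b ∨ Inert l) := by
      have h1 : l ∣ a * b * ∏ q ∈ S, q := by
        rw [hM] at lM
        exact_mod_cast lM
      rcases hl.out.dvd_mul.1 h1 with h2 | h2
      · rcases hl.out.dvd_mul.1 h2 with h3 | h3
        · exact absurd ((Nat.prime_dvd_prime_iff_eq hl.out ha.1).1 h3) la
        · have := (Nat.prime_dvd_prime_iff_eq hl.out hb.1).1 h3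
          exact ⟨by omega, Or.inl this⟩
      · have h3 := hS l (Pool.Agent.Y687.dvd_prod_primes (fun q hq => (hS q hq).1) hl.out h2)
        exact ⟨by have := h3.2.1; omega, Or.inr h3⟩
    by_cases hs : IsSquare ((a : ℤ) : ZMod l)
    · exact q1 l (Or.inl (padic_sq l2 hla hs))
    · -- then `-7` is not a square
      have hlb : l ≠ b := by
        rintro rfl
        apply hs
        have : ((a : ℤ) : ZMod l) ≠ 0 := by
          rw [Ne, ZMod.intCast_zmod_eq_zero_iff_dvd]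
          exact hla
        rw [← jacobiSym.legendreSym.to_jacobiSym, legendreSym.eq_one_iff _ this] at hj
        exact hj
      have hI := l4.2.resolve_left hlb
      have h7 : ¬ IsSquare (-7 : ZMod l) := by
        rw [Pool.Agent.Y687.sq_seven l l4.1 l7]
        have := hI.2.2
        omega
      have h7l : ¬ (l : ℤ) ∣ -7 := by
        rw [dvd_neg]
        intro h
        have h' : l ∣ 7 := by exact_mod_cast h
        exact l7 ((Nat.prime_dvd_prime_iff_eq hl.out (by norm_num)).1 h')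
      have hprod : IsSquare (((-7 * a : ℤ)) : ZMod l) := by
        have h0 : (((-7 * a : ℤ)) : ZMod l) ≠ 0 := by
          rw [Ne, ZMod.intCast_zmod_eq_zero_iff_dvd]
          intro h
          rcases (Nat.prime_iff_prime_int.1 hl.out).dvd_or_dvd h with h | h
          · exact h7l h
          · exact hla h
        refine (quadraticChar_one_iff_isSquare h0).1 ?_
        push_cast
        rw [map_mul, quadraticChar_neg_one_iff_not_isSquare.2 h7]
        push_cast at hs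
        rw [quadraticChar_neg_one_iff_not_isSquare.2 hs]
        norm_num
      obtain ⟨r, hr⟩ := padic_sq (p := l) l2 (n := -7 * a) (by
        intro h
        rcases (Nat.prime_iff_prime_int.1 hl.out).dvd_or_dvd h with h | h
        · exact h7l h
        · exact hla h) hprod
      refine q1 l (Or.inr ⟨7 * M * r, ?_⟩)
      push_cast at hr ⊢
      linear_combination (49 * (M : ℚ_[l]) ^ 2) * hr
  · exact hg l M a l2 l7 lM hla

end Pool.Agent.NH5.AB
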