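import Pool.Agent.Y687.K2.Half

/-!
Sums over the squares: the diagonal term.
-/

set_option autoImplicit false
set_option linter.style.haveILetI false

open Finset

open scoped Classical

namespace Pool.Agent.NH5.AB

open Pool.Agent.Y687

/-- a correlation sum at an element of order two vanishes modulo two -/
theorem corr_zero {Q : Type*} [CommGroup Q] [Fintype Q] (f : Q → ZMod 2) {x : Q}
    (hx : x * x = 1) (hx1 : x ≠ 1) (hf : ∀ D, f (x * D) = f D) : ∑ D, f D = 0 := by
  refine sum_involution (fun D _ => x * D) ?_ ?_ ?_ ?_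
  · intro D _
    show f D + f (x * D) = 0
    rw [hf]
    exact CharTwo.add_self_eq_zero _
  · intro D _ _ h
    apply hx1
    have : x * D = 1 * D := by rw [one_mul]; exact h
    exact mul_right_cancel this
  · intro D _
    exact mem_univ _
  · intro D _
    show x * (x * D) = D
    rw [← mul_assoc, hx, one_mul]

section

variable {G : Type*} [CommGroup G] [Fintype G] [HasDistribNeg G]

/-- the double sum is the diagonal term -/
theorem double_diag {K : Subgroup G} [Fintype (G ⧸ K)] (hK : (-1 : G) ∈ K) {o o' : G → ZMod 2}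
    (ho : OddF o) (ho' : OddF o') {n : G} (hn : n ∈ K) (hn1 : n ≠ 1) (hn2 : n * n = 1)
    (hno : ∀ x, o' (n * x) = o' x) {τ υ : G} (hτ : τ * τ ∈ K) (hυ : υ * υ ∈ K)
    (nτ : τ ∉ K) (nυ : υ ∉ K) (nτυ : τ * υ ∉ K) :
    ∑ z ∈ univ.filter (fun z => o z = 1), ∑ u ∈ HS K o 1,
      (o z + o (τ * z)) * (o (u⁻¹ * z) + o (υ * u⁻¹ * z)) =
        ∑ z ∈ univ.filter (fun z => o' z = 1), o z := by
  have hone : (1 : ZMod 2) + 1 = 0 := by decide
  have hinvneg : ∀ x : G, (-x)⁻¹ = -x⁻¹ := by
    intro x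
    rw [inv_eq_iff_mul_eq_one, neg_mul_neg, mul_inv_cancel]
  have hphi := fun (d : G) {h : G} (hh : h ∈ K) => phi_mul hK ho ho' hn hn1 hn2 hno d hh
  -- the inner sum
  have s1 : ∑ z ∈ univ.filter (fun z => o z = 1), ∑ u ∈ HS K o 1,
      (o z + o (τ * z)) * (o (u⁻¹ * z) + o (υ * u⁻¹ * z)) =
      ∑ z ∈ univ.filter (fun z => o z = 1), (o z + o (τ * z)) *
        (phi K o o' z + phi K o o' (υ * z)) := by
    refine sum_congr rfl fun z _ => ?_
    have h1 := inner_sum hK ho ho' 1 υ z
    rw [inv_one, one_mul, mul_one] at h1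
    rw [← h1, ← mul_sum]
    congr 1
    refine hs_sum hK ho ho' _ _ ?_
    intro x
    rw [hinvneg, neg_mul, mul_neg, neg_mul, ho, ho]
    linear_combination hone
  -- change of the half system
  have s2 : ∑ z ∈ univ.filter (fun z => o z = 1), (o z + o (τ * z)) *
        (phi K o o' z + phi K o o' (υ * z)) =
      ∑ z ∈ univ.filter (fun z => o' z = 1), (o z + o (τ * z)) *
        (phi K o o' z + phi K o o' (υ * z)) := by
    have hT : ∀ o1 : G → ZMod 2, univ.filter (fun z => o1 z = 1) = HS (⊤ : Subgroup G) o1 1 := by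
      intro o1
      ext z
      rw [mem_HS, mem_filter]
      simp
    rw [hT, hT]
    refine hs_sum (Subgroup.mem_top _) ho ho' _ _ ?_
    intro z
    have hn' : ∀ d : G, phi K o o' (-d) = phi K o o' d := by
      intro d
      have : -d = d * -1 := by rw [mul_neg, mul_one]
      rw [this]
      exact hphi d hK
    rw [mul_neg, mul_neg, ho, ho, hn', hn']
    linear_combination (phi K o o' z + phi K o o' (υ * z)) * hone
  rw [s1, s2]
  -- the function on the quotient
  set f : G ⧸ K → ZMod 2 := fun D => phi K o o' D.out with hf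
  have hfm : ∀ d : G, f (QuotientGroup.mk d) = phi K o o' d := by
    intro d
    obtain ⟨h, hh⟩ := QuotientGroup.mk_out_eq_mul K d
    show phi K o o' (QuotientGroup.mk d : G ⧸ K).out = _
    rw [hh]
    exact hphi d h.2
  have efib : ∀ d : G, (univ.filter (fun z => o' z = 1)).filter
      (fun z => (QuotientGroup.mk z : G ⧸ K) = QuotientGroup.mk d) = HS K o' d := by
    intro d
    ext z
    rw [mem_HS, mem_filter, mem_filter]
    constructor
    · rintro ⟨⟨_, h2⟩, h3⟩
      exact ⟨QuotientGroup.eq.1 h3.symm, h2⟩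
    · rintro ⟨h2, h3⟩
      exact ⟨⟨mem_univ _, h3⟩, (QuotientGroup.eq.2 h2).symm⟩
  have s3 : ∑ z ∈ univ.filter (fun z => o' z = 1), (o z + o (τ * z)) *
        (phi K o o' z + phi K o o' (υ * z)) =
      ∑ D : G ⧸ K, (f D + f ((QuotientGroup.mk τ : G ⧸ K) * D)) *
        (f D + f ((QuotientGroup.mk υ : G ⧸ K) * D)) := by
    rw [← sum_fiberwise (univ.filter (fun z => o' z = 1)) (fun z => (QuotientGroup.mk z : G ⧸ K))]
    refine sum_congr rfl fun D _ => ?_
    obtain ⟨d, rfl⟩ := QuotientGroup.mk_surjective D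
    have e1 : ∀ z ∈ (univ.filter (fun z => o' z = 1)).filter
        (fun z => (QuotientGroup.mk z : G ⧸ K) = QuotientGroup.mk d), (o z + o (τ * z)) *
        (phi K o o' z + phi K o o' (υ * z)) = (o z + o (τ * z)) *
          (phi K o o' d + phi K o o' (υ * d)) := by
      intro z hz
      rw [mem_filter] at hz
      have h2 : d⁻¹ * z ∈ K := QuotientGroup.eq.1 hz.2.symm
      have h3 : ∀ c : G, phi K o o' (c * z) = phi K o o' (c * d) := by
        intro c
        rw [← hphi (c * d) h2]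
        congr 1
        rw [mul_assoc, mul_inv_cancel_left]
      have h4 : phi K o o' z = phi K o o' d := by
        have := h3 1
        rwa [one_mul, one_mul] at this
      rw [h3, h4]
    rw [sum_congr rfl e1, ← sum_mul, efib, coset_sum hK ho ho']
    rw [← QuotientGroup.mk_mul, ← QuotientGroup.mk_mul, hfm, hfm, hfm]
  rw [s3]
  -- the elements of order two
  have hone' : ∀ x : G, x ∈ K ↔ (QuotientGroup.mk x : G ⧸ K) = 1 := fun x =>
    (QuotientGroup.eq_one_iff x).symm
  have ord : ∀ x : G, x * x ∈ K → (QuotientGroup.mk x : G ⧸ K) * QuotientGroup.mk x = 1 := by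
    intro x hx
    rw [← QuotientGroup.mk_mul]; exact (hone' _).1 hx
  have corr : ∀ x : G, x * x ∈ K → x ∉ K →
      ∑ D : G ⧸ K, f D * f ((QuotientGroup.mk x : G ⧸ K) * D) = 0 := by
    intro x hx hx1
    refine corr_zero _ (ord x hx) (fun h => hx1 ((hone' x).2 h)) ?_
    intro D
    rw [← mul_assoc, ord x hx, one_mul]
    ring
  have hcτ := corr τ hτ nτ
  have hcυ := corr υ hυ nυ
  have hcτυ : ∑ D : G ⧸ K, f ((QuotientGroup.mk τ : G ⧸ K) * D) *
      f ((QuotientGroup.mk υ : G ⧸ K) * D) = 0 := by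
    have h1 : τ * υ * (τ * υ) ∈ K := by
      have : τ * υ * (τ * υ) = (τ * τ) * (υ * υ) := mul_mul_mul_comm _ _ _ _
      rw [this]
      exact K.mul_mem hτ hυ
    have h2 := corr (τ * υ) h1 nτυ
    rw [← h2]
    refine sum_nbij' (fun D => (QuotientGroup.mk τ : G ⧸ K) * D)
      (fun D => (QuotientGroup.mk τ : G ⧸ K) * D) (fun _ _ => mem_univ _) (fun _ _ => mem_univ _)
      ?_ ?_ ?_
    · intro D _
      show (QuotientGroup.mk τ : G ⧸ K) * ((QuotientGroup.mk τ : G ⧸ K) * D) = D
      rw [← mul_assoc, ord τ hτ, one_mul]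
    · intro D _
      show (QuotientGroup.mk τ : G ⧸ K) * ((QuotientGroup.mk τ : G ⧸ K) * D) = D
      rw [← mul_assoc, ord τ hτ, one_mul]
    · intro D _
      show f ((QuotientGroup.mk τ : G ⧸ K) * D) * f ((QuotientGroup.mk υ : G ⧸ K) * D) =
        f ((QuotientGroup.mk τ : G ⧸ K) * D) *
          f ((QuotientGroup.mk (τ * υ) : G ⧸ K) * ((QuotientGroup.mk τ : G ⧸ K) * D))
      congr 2
      rw [QuotientGroup.mk_mul]
      have : (QuotientGroup.mk τ : G ⧸ K) * QuotientGroup.mk υ * (QuotientGroup.mk τ * D) =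
        (QuotientGroup.mk τ * QuotientGroup.mk τ) * (QuotientGroup.mk υ * D) :=
        mul_mul_mul_comm _ _ _ _
      rw [this, ord τ hτ, one_mul]
  have hsq : ∀ y : ZMod 2, y * y = y := by decide
  have s4 : ∑ D : G ⧸ K, (f D + f ((QuotientGroup.mk τ : G ⧸ K) * D)) *
        (f D + f ((QuotientGroup.mk υ : G ⧸ K) * D)) = ∑ D : G ⧸ K, f D := by
    have : ∑ D : G ⧸ K, (f D + f ((QuotientGroup.mk τ : G ⧸ K) * D)) *
        (f D + f ((QuotientGroup.mk υ : G ⧸ K) * D)) =
        ∑ D : G ⧸ K, f D + ∑ D : G ⧸ K, f D * f ((QuotientGroup.mk υ : G ⧸ K) * D) +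
          ∑ D : G ⧸ K, f D * f ((QuotientGroup.mk τ : G ⧸ K) * D) +
          ∑ D : G ⧸ K, f ((QuotientGroup.mk τ : G ⧸ K) * D) *
            f ((QuotientGroup.mk υ : G ⧸ K) * D) := by
      simp only [← sum_add_distrib]
      refine sum_congr rfl fun D _ => ?_
      have := hsq (f D)
      linear_combination this
    rw [this, hcτ, hcυ, hcτυ, add_zero, add_zero, add_zero]
  rw [s4]
  -- the sum of the transfers
  obtain ⟨P, hP⟩ : ∃ P : G → ZMod 2, ∀ d, P d = ∑ x ∈ HS K o' d, o x := ⟨fun d => _, fun d => rfl⟩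
  have hcard : ∀ d : G, ∀ c : ZMod 2, ∑ _x ∈ HS K o' d, c = 0 := fun d c =>
    free_zero hK ho' ho' hn hn1 hn2 hno d (fun _ => c) (fun _ => rfl) (fun _ _ => rfl)
  have hphiP : ∀ d : G, phi K o o' d = P 1 + P d := by
    intro d
    -- change the half system for the even function `o (d k) + o' (d k)`
    have e1 : ∑ k ∈ HS K o' 1, (o (d * k) + o' (d * k)) =
        ∑ k ∈ HS K (fun k => o' (d * k)) 1, (o (d * k) + o' (d * k)) := by
      refine hs_sum hK ho' ?_ 1 _ ?_
      · intro x
        show o' (d * -x) = o' (d * x) + 1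
        rw [mul_neg, ho']
      · intro x
        rw [mul_neg, ho, ho']
        linear_combination hone
    have e2 : ∑ k ∈ HS K (fun k => o' (d * k)) 1, (o (d * k) + o' (d * k)) =
        ∑ x ∈ HS K o' d, (o x + o' x) := by
      refine sum_nbij' (fun k => d * k) (fun x => d⁻¹ * x) ?_ ?_ ?_ ?_ ?_
      · intro k hk
        rw [mem_HS, inv_one, one_mul] at hk
        refine mem_HS.2 ⟨?_, hk.2⟩
        rw [inv_mul_cancel_left]; exact hk.1
      · intro x hx
        rw [mem_HS] at hx
        refine mem_HS.2 ⟨by rw [inv_one, one_mul]; exact hx.1, ?_⟩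
        show o' (d * (d⁻¹ * x)) = 1
        rw [mul_inv_cancel_left]; exact hx.2
      · intro k _
        exact inv_mul_cancel_left d k
      · intro x _
        exact mul_inv_cancel_left d x
      · intro k _
        rfl
    have e3 : ∑ x ∈ HS K o' d, (o x + o' x) = P d := by
      rw [sum_add_distrib, hP]
      have : ∑ x ∈ HS K o' d, o' x = ∑ _x ∈ HS K o' d, (1 : ZMod 2) :=
        sum_congr rfl fun x hx => (mem_HS.1 hx).2
      rw [this, hcard, add_zero]
    have e4 : ∑ k ∈ HS K o' 1, (o' k + o' (d * k)) = 0 := by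
      refine free_zero hK ho' ho' hn hn1 hn2 hno 1 _ ?_ ?_
      · intro x
        rw [mul_neg, ho', ho']
        linear_combination hone
      · intro x _
        rw [hno, mul_left_comm, hno]
    have e5 : ∑ k ∈ HS K o' 1, o' k = 0 := by
      have : ∑ x ∈ HS K o' 1, o' x = ∑ _x ∈ HS K o' 1, (1 : ZMod 2) :=
        sum_congr rfl fun x hx => (mem_HS.1 hx).2
      rw [this, hcard]
    rw [sum_add_distrib, e5, zero_add] at e4
    rw [e2, e3, sum_add_distrib, e4, add_zero] at e1
    unfold phi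
    rw [sum_add_distrib, e1, hP 1]
  have s5 : ∑ D : G ⧸ K, f D = ∑ D : G ⧸ K, P D.out := by
    have h1 : ∑ D : G ⧸ K, f D = ∑ D : G ⧸ K, (P 1 + P D.out) :=
      sum_congr rfl fun D _ => hphiP _
    rw [h1, sum_add_distrib]
    have h2 : ∑ _D : G ⧸ K, P 1 = 0 :=
      corr_zero (fun _ => P 1) (ord τ hτ) (fun h => nτ ((hone' τ).2 h)) (fun _ => rfl)
    rw [h2, zero_add]
  rw [s5, ← sum_fiberwise (univ.filter (fun z => o' z = 1)) (fun z => (QuotientGroup.mk z : G ⧸ K))]
  refine sum_congr rfl fun D _ => ?_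
  rw [hP]
  have h1 : (QuotientGroup.mk D.out : G ⧸ K) = D := QuotientGroup.out_eq' D
  rw [← efib D.out, h1]

end

end Pool.Agent.NH5.AB
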