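import Pool.Agent.NH5.AB.Grp
import Pool.Agent.Y687.K2.HSE2

/-!
The sum of the symbol over a half system of the squares modulo `M`.
-/

set_option autoImplicit false
set_option linter.style.haveILetI false

open Finset

open scoped Classical

namespace Pool.Agent.NH5.AB

open Pool.Agent.Y687

section

variable {M : ℕ} [NeZero M]

/-- the subgroup of squares -/
def KS (M : ℕ) [NeZero M] : Subgroup (ZMod M)ˣ where
  carrier := {u | ∀ q : ℕ, q.Prime → q ∣ M → chi q u = 1}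
  mul_mem' := by
    rintro a b ha hb
    intro q hq hqM
    rw [chi_mul hqM, ha q hq hqM, hb q hq hqM, one_mul]
  one_mem' := fun q _ hqM => chi_one hqM
  inv_mem' := by
    rintro a ha
    intro q hq hqM
    rw [chi_inv hqM, ha q hq hqM]

theorem mem_KS {u : (ZMod M)ˣ} : u ∈ KS M ↔ ∀ q : ℕ, q.Prime → q ∣ M → chi q u = 1 := Iff.rfl

theorem sq_mem_KS (u : (ZMod M)ˣ) : u * u ∈ KS M := by
  refine mem_KS.2 fun q _ hqM => ?_
  rw [chi_mul hqM]
  rcases chi_pm hqM u with h | h <;> rw [h] <;> norm_num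

/-- standing hypotheses -/
structure HypS (M a b : ℕ) : Prop where
  sq : Squarefree M
  m4 : M % 4 = 1
  q4 : ∀ q : ℕ, q.Prime → q ∣ M → q % 4 = 1
  c14 : Nat.Coprime 14 M
  pa : a.Prime
  pb : b.Prime
  ne : a ≠ b
  da : a ∣ M
  db : b ∣ M
  a2 : jacobiSym 2 a = 1
  a7 : jacobiSym 7 a = -1
  b2 : jacobiSym 2 b = -1
  b7 : jacobiSym 7 b = 1

theorem HypS.gt {a b : ℕ} (H : HypS M a b) : 2 < M := by
  have h1 := Nat.le_of_dvd (Nat.pos_of_ne_zero (NeZero.ne M)) H.da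
  have h2 := H.pa.two_le
  have h3 := H.q4 a H.pa H.da
  omega

theorem HypS.exists_l {a b : ℕ} (H : HypS M a b) (l : ℕ) : ∃ l' : ℕ, l'.Prime ∧ l' ∣ M ∧ l' ≠ l := by
  by_cases h : a = l
  · exact ⟨b, H.pb, H.db, fun h2 => H.ne (h.trans h2.symm)⟩
  · exact ⟨a, H.pa, H.da, h⟩

theorem HypS.neg {a b : ℕ} (H : HypS M a b) : (-1 : (ZMod M)ˣ) ∈ KS M :=
  mem_KS.2 fun q hq hqM => chi_neg_one hqM (H.q4 q hq hqM)

theorem HypS.n_mem {a b : ℕ} (H : HypS M a b) {l : ℕ} (hlM : l ∣ M)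
    {n : (ZMod M)ˣ} (h1 : rd hlM (n : ZMod M) = -1)
    (h2 : ∀ q : ℕ, q.Prime → ∀ h : q ∣ M, q ≠ l → rd h (n : ZMod M) = 1) : n ∈ KS M := by
  refine mem_KS.2 fun q hq hqM => ?_
  haveI : Fact q.Prime := ⟨hq⟩
  rw [chi_one_iff hq hqM]
  rcases eq_or_ne q l with rfl | hql
  · rw [h1]
    exact (ZMod.exists_sq_eq_neg_one_iff (p := q)).2 (by have := H.q4 q hq hqM; omega)
  · rw [h2 q hq hqM hql]
    exact ⟨1, by ring⟩

/-- vanishing of sums invariant under a local sign change -/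
theorem HypS.free {a b : ℕ} (H : HypS M a b) (α : (ZMod M)ˣ) {l : ℕ} (hl : l.Prime)
    (hlM : l ∣ M) (F : (ZMod M)ˣ → ZMod 2) (hF : ∀ x, F (-x) = F x)
    (hFn : ∀ n : (ZMod M)ˣ, n * n = 1 → (∀ z : ZMod M, rd hlM z = 0 → (n : ZMod M) * z = z) →
      ∀ x, F (n * x) = F x) :
    ∑ x ∈ HS (KS M) ou α, F x = 0 := by
  have hl2 : l ≠ 2 := by
    rintro rfl
    have := H.q4 2 hl hlM
    omega
  obtain ⟨n, n1, n2, n3, n4, n5⟩ := exists_n H.sq hl hlM hl2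
  obtain ⟨l', hl', hlM', hne⟩ := H.exists_l l
  have h2 := H.m4
  have h3 := H.gt
  have h4 := H.q4 l' hl' hlM'
  exact free_zero H.neg (ou_odd (by omega) (by omega))
    (ol_odd hl' hlM' (by omega)) (H.n_mem hlM n3 n4) n2 n1
    (ol_n hlM' (n4 l' hl' hlM' hne)) α F hF (fun x _ => hFn n n1 n5 x)

/-- the double sum over the units -/
theorem HypS.dz {a b : ℕ} (H : HypS M a b) {τ t7 : (ZMod M)ˣ} (hτ : (τ : ZMod M) = 2)
    (ht7 : (t7 : ZMod M) = 7) {p : ℕ} (hp : p.Prime) (hpM : p ∣ M) :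
    ∑ z ∈ univ.filter (fun z : (ZMod M)ˣ => ou z = 1), ∑ u ∈ HS (KS M) ou 1,
      (ou z + ou (τ * z)) * (ou (u⁻¹ * z) + ou (t7⁻¹ * u⁻¹ * z)) =
      ∑ z ∈ univ.filter (fun z : (ZMod M)ˣ => ol hpM z = 1), ou z := by
  have h2 := H.m4
  have h3 := H.gt
  have hp4 := H.q4 p hp hpM
  obtain ⟨l, hl, hlM, hne⟩ := H.exists_l p
  have hl2 : l ≠ 2 := by
    rintro rfl
    have := H.q4 2 hl hlM
    omega
  obtain ⟨n, n1, n2, n3, n4, n5⟩ := exists_n H.sq hl hlM hl2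
  have c2 : chi b τ = -1 := by
    rw [chi_val H.db τ 2 (by rw [hτ]; norm_num)]
    exact H.b2
  have c7 : chi a t7⁻¹ = -1 := by
    rw [chi_inv H.da, chi_val H.da t7 7 (by rw [ht7]; norm_num)]
    exact H.a7
  have c14 : chi a (τ * t7⁻¹) = -1 := by
    rw [chi_mul H.da, c7, chi_val H.da τ 2 (by rw [hτ]; norm_num), H.a2]
    norm_num
  refine double_diag H.neg (ou_odd (by omega) (by omega)) (ol_odd hp hpM (by omega))
    (H.n_mem hlM n3 n4) n2 n1 (ol_n hpM (n4 p hp hpM hne.symm)) (sq_mem_KS τ) (sq_mem_KS _) ?_ ?_ ?_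
  · intro h
    have := h b H.pb H.db
    rw [c2] at this
    norm_num at this
  · intro h
    have := h a H.pa H.da
    rw [c7] at this
    norm_num at this
  · intro h
    have := h a H.pa H.da
    rw [c14] at this
    norm_num at this

/-- the sum of the symbol over a half system of the squares modulo two -/
theorem HypS.par {a b : ℕ} (H : HypS M a b) {s : ℚ → ℤ} {c : ℕ → ℤ} (hs : Symb2 s c)
    {p : ℕ} (hp : p.Prime) (hpM : p ∣ M) :
    ((∑ u ∈ HS (KS M) ou 1, sv s u : ℤ) : ZMod 2) =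
      ∑ z ∈ univ.filter (fun z : (ZMod M)ˣ => ol hpM z = 1), ou z := by
  have hM4 := H.m4
  have hM2 : M % 2 = 1 := by omega
  have hgt := H.gt
  haveI : Nontrivial (ZMod M) := ZMod.nontrivial_iff.2 (by omega)
  have h14 := H.c14
  obtain ⟨τ, hτ⟩ : ∃ τ : (ZMod M)ˣ, (τ : ZMod M) = 2 :=
    ⟨ZMod.unitOfCoprime 2 (Nat.Coprime.coprime_dvd_left (by norm_num) h14), by
      rw [ZMod.coe_unitOfCoprime]; norm_num⟩
  obtain ⟨t7, ht7⟩ : ∃ t7 : (ZMod M)ˣ, (t7 : ZMod M) = 7 :=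
    ⟨ZMod.unitOfCoprime 7 (Nat.Coprime.coprime_dvd_left (by norm_num) h14), by
      rw [ZMod.coe_unitOfCoprime]; norm_num⟩
  rw [Int.cast_sum]
  rw [sum_congr rfl fun u _ => sv_mod_two hs hM4 h14 ht7 u]
  rw [sum_add_distrib, sum_add_distrib]
  have hneg : ∀ x : (ZMod M)ˣ, (-x)⁻¹ = -x⁻¹ := by
    intro x
    rw [inv_eq_iff_mul_eq_one, neg_mul_neg, mul_inv_cancel]
  have c1 : ∀ c : ZMod 2, ∑ _u ∈ HS (KS M) ou (1 : (ZMod M)ˣ), c = 0 := fun c =>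
    H.free 1 H.pa H.da (fun _ => c) (fun _ => rfl) (fun _ _ _ _ => rfl)
  rw [c1, c1, zero_add, zero_add, sum_comm]
  have hone : (1 : ZMod 2) + 1 = 0 := by decide
  -- the function of `z`
  obtain ⟨h, hh⟩ : ∃ h : ZMod M → ZMod 2, ∀ z, h z = ∑ u ∈ HS (KS M) ou (1 : (ZMod M)ˣ),
      (oo z + oo (2 * z)) * (oo (((u⁻¹ : (ZMod M)ˣ) : ZMod M) * z) +
        oo (((t7⁻¹ * u⁻¹ : (ZMod M)ˣ) : ZMod M) * z)) := ⟨fun z => _, fun z => rfl⟩
  rw [sum_congr rfl fun z _ => (hh z).symm]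
  have uz : ∀ (u : (ZMod M)ˣ) (z : ZMod M), z ≠ 0 → (u : ZMod M) * z ≠ 0 := by
    intro u z hz h0
    exact hz (by simpa using (u.isUnit.mul_right_eq_zero).1 h0)
  have m2 : ∀ z : ZMod M, z ≠ 0 → 2 * z ≠ 0 := by
    intro z hz
    have := uz τ z hz
    rwa [hτ] at this
  -- evenness
  have hev : ∀ z : ZMod M, z ≠ 0 → h (-z) = h z := by
    intro z hz
    rw [hh, hh]
    refine sum_congr rfl fun u _ => ?_
    rw [mul_neg, mul_neg, mul_neg, oo_neg hM2 hz, oo_neg hM2 (m2 z hz),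
      oo_neg hM2 (uz _ z hz), oo_neg hM2 (uz _ z hz)]
    linear_combination ((oo z + oo (2 * z)) + (oo (((u⁻¹ : (ZMod M)ˣ) : ZMod M) * z) +
        oo (((t7⁻¹ * u⁻¹ : (ZMod M)ˣ) : ZMod M) * z)) + 1 + 1) * hone
  -- vanishing at non units
  have hnu : ∀ z : ZMod M, z ≠ 0 → ¬ IsUnit z → h z = 0 := by
    intro z hz hzu
    obtain ⟨l, hl, hlz, hlM⟩ : ∃ l : ℕ, l.Prime ∧ l ∣ z.val ∧ l ∣ M := by
      refine Nat.Prime.not_coprime_iff_dvd.1 fun hc => hzu ?_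
      have := (ZMod.isUnit_iff_coprime z.val M).2 hc
      rwa [ZMod.natCast_zmod_val] at this
    have hz0 : rd hlM z = 0 := by
      rw [← rd_val hlM, ZMod.natCast_eq_zero_iff]
      exact hlz
    rw [hh, ← mul_sum]
    rw [H.free 1 hl hlM (fun u => oo (((u⁻¹ : (ZMod M)ˣ) : ZMod M) * z) +
        oo (((t7⁻¹ * u⁻¹ : (ZMod M)ˣ) : ZMod M) * z)) ?_ ?_, mul_zero]
    · intro x
      show oo ((((-x)⁻¹ : (ZMod M)ˣ) : ZMod M) * z) + oo (((t7⁻¹ * (-x)⁻¹ : (ZMod M)ˣ) : ZMod M) * z) =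
        oo (((x⁻¹ : (ZMod M)ˣ) : ZMod M) * z) + oo (((t7⁻¹ * x⁻¹ : (ZMod M)ˣ) : ZMod M) * z)
      rw [hneg, mul_neg, Units.val_neg, Units.val_neg, neg_mul, neg_mul, oo_neg hM2 (uz _ z hz),
        oo_neg hM2 (uz _ z hz)]
      linear_combination hone
    · intro n hn hnz x
      have hni : n⁻¹ = n := inv_eq_of_mul_eq_one_left hn
      have e1 : ((((n * x)⁻¹ : (ZMod M)ˣ)) : ZMod M) * z = ((x⁻¹ : (ZMod M)ˣ) : ZMod M) * z := by
        rw [mul_inv_rev, hni, Units.val_mul, mul_assoc, hnz z hz0]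
      show oo ((((n * x)⁻¹ : (ZMod M)ˣ) : ZMod M) * z) +
        oo (((t7⁻¹ * (n * x)⁻¹ : (ZMod M)ˣ) : ZMod M) * z) =
        oo (((x⁻¹ : (ZMod M)ˣ) : ZMod M) * z) + oo (((t7⁻¹ * x⁻¹ : (ZMod M)ˣ) : ZMod M) * z)
      rw [Units.val_mul, Units.val_mul t7⁻¹ x⁻¹, mul_assoc, mul_assoc, e1]
  -- reduction to the units
  have s1 : ∑ z ∈ Pos M, h z = ∑ z ∈ (Pos M).filter (fun z => IsUnit z), h z := by
    symm
    refine sum_subset (filter_subset _ _) ?_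
    intro z hz hz2
    refine hnu z (mem_Pos.1 hz).1 fun hu => hz2 (mem_filter.2 ⟨hz, hu⟩)
  have s2 : ∑ z ∈ (Pos M).filter (fun z => IsUnit z), h z =
      ∑ z ∈ univ.filter (fun z : ZMod M => IsUnit z ∧ oo z = 1), h z := by
    have u0 : ∀ z : ZMod M, IsUnit z → z ≠ 0 := fun z hz => hz.ne_zero
    refine half_sum _ _ _ ?_ ?_ ?_ ?_
    · intro z hz hz2
      rw [mem_filter, mem_Pos] at hz
      have hz0 := hz.1.1
      refine ⟨mem_filter.2 ⟨mem_univ _, hz.2.neg, ?_⟩, hev z hz0⟩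
      rw [oo_neg hM2 hz0]
      have h3 : ¬ oo z = 1 := fun h => hz2 (mem_filter.2 ⟨mem_univ _, hz.2, h⟩)
      have h4 : ∀ y : ZMod 2, ¬ y = 1 → y + 1 = 1 := by decide
      exact h4 _ h3
    · intro z hz hz2
      rw [mem_filter] at hz
      have hz0 := u0 z hz.2.1
      refine ⟨mem_filter.2 ⟨mem_Pos.2 ⟨neg_ne_zero.2 hz0, ?_⟩, hz.2.1.neg⟩, hev z hz0⟩
      have h3 : ¬ 2 * z.val ≤ M := fun h => hz2 (mem_filter.2 ⟨mem_Pos.2 ⟨hz0, h⟩, hz.2.1⟩)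
      rw [val_neg' hz0]
      omega
    · intro z hz hz2
      rw [mem_filter, mem_Pos] at hz hz2
      have h3 := hz2.1.2
      rw [val_neg' hz.1.1] at h3
      have h4 := hz.1.2
      have := ZMod.val_lt z
      omega
    · intro z hz hz2
      rw [mem_filter] at hz hz2
      have hz0 := u0 z hz.2.1
      have h3 := hz2.2.2
      rw [oo_neg hM2 hz0, hz.2.2] at h3
      exact absurd h3 (by decide)
  have s3 : ∑ z ∈ univ.filter (fun z : ZMod M => IsUnit z ∧ oo z = 1), h z =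
      ∑ z ∈ univ.filter (fun z : (ZMod M)ˣ => ou z = 1), h (z : ZMod M) := by
    symm
    refine sum_nbij (fun z => (z : ZMod M)) ?_ ?_ ?_ ?_
    · intro z hz
      rw [mem_filter] at hz
      exact mem_filter.2 ⟨mem_univ _, z.isUnit, hz.2⟩
    · intro x _ y _ hxy
      exact Units.ext hxy
    · intro z hz
      have hz' := (mem_filter.1 (Finset.mem_coe.1 hz)).2
      obtain ⟨u, hu⟩ := hz'.1
      refine ⟨u, Finset.mem_coe.2 (mem_filter.2 ⟨mem_univ _, ?_⟩), hu⟩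
      show oo (u : ZMod M) = 1
      rw [hu]; exact hz'.2
    · intro z _
      rfl
  rw [s1, s2, s3]
  rw [← H.dz hτ ht7 hp hpM]
  refine sum_congr rfl fun z _ => ?_
  rw [hh]
  refine sum_congr rfl fun u _ => ?_
  unfold ou
  simp only [Units.val_mul, hτ]

end

end Pool.Agent.NH5.AB
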