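import Pool.Agent.NH5.AB.Ap
import Pool.Agent.NH5.AB.Sq
import Pool.Agent.NH5.AB.Cnt
import Pool.Agent.Y687.K2.Rec2

/-!
The recursion for the twists by `a b m`.
-/

set_option autoImplicit false
set_option linter.style.haveILetI false

open Finset

open scoped Classical

namespace Pool.Agent.NH5.AB

open Pool.Agent.Y687
open Pool.Agent.W97.MT (ap E14)

/-- the sum vanishes if the sign is negative -/
theorem SS_zero {s : ℚ → ℤ} {c : ℕ → ℤ} (hs : Symb s c) {D : ℕ} (hD : 0 < D)
    (h14 : Nat.Coprime 14 D) (hj : jacobiSym 14 D = -1) : SS s D D = 0 := by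
  haveI : NeZero D := ⟨hD.ne'⟩
  obtain ⟨e, he⟩ : ∃ e : (ZMod D)ˣ, (e : ZMod D) = 14 :=
    ⟨ZMod.unitOfCoprime 14 h14, by rw [ZMod.coe_unitOfCoprime]; norm_num⟩
  unfold SS
  rw [sum_rr (M := D) (fun a => jacobiSym (a : ℤ) D * s ((a : ℚ) / D))]
  obtain ⟨X, hX⟩ : ∃ X, X = ∑ u : (ZMod D)ˣ, jacobiSym (((u : ZMod D).val : ℕ) : ℤ) D *
      s ((((u : ZMod D).val : ℕ) : ℚ) / D) := ⟨_, rfl⟩
  rw [← hX]
  have hce : chi D e = -1 := by
    rw [chi_val (dvd_refl D) e 14 (by rw [he]; norm_num)]
    exact hj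
  have h1 : X = -X := by
    conv_rhs => rw [hX, ← sum_neg_distrib]
    rw [hX]
    refine sum_nbij' (fun u => (e * u)⁻¹) (fun u => (e * u)⁻¹) (fun _ _ => mem_univ _)
      (fun _ _ => mem_univ _) ?_ ?_ ?_
    · intro u _
      show (e * (e * u)⁻¹)⁻¹ = u
      rw [mul_inv_rev, mul_inv_rev, mul_inv_rev]
      simp
    · intro u _
      show (e * (e * u)⁻¹)⁻¹ = u
      rw [mul_inv_rev, mul_inv_rev, mul_inv_rev]
      simp
    · intro u _
      have h2 : sv s (e * u)⁻¹ = sv s u := sv_inv hs e u (e * u)⁻¹ he (mul_inv_cancel _)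
      have h3 : chi D (e * u)⁻¹ = - chi D u := by
        rw [chi_inv (dvd_refl D), chi_mul (dvd_refl D), hce]
        ring
      show chi D u * sv s u = -(chi D (e * u)⁻¹ * sv s (e * u)⁻¹)
      rw [h2, h3]
      ring
  omega

/-- the squares class sum for the primes `a`, `b` and `S` -/
theorem class_sum {s : ℚ → ℤ} {c : ℕ → ℤ} (hs : Symb2 s c) {a b : ℕ} (ha : TypA a) (hb : TypB b)
    {S : Finset ℕ} (hS : ∀ q ∈ S, Inert q) :
    ∃ X : ℤ, AA s (insert a (insert b S)) (fun _ => 1) = 2 * X ∧
      (X : ZMod 2) = if S = ∅ then hh a b else 0 := by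
  have hab : a ≠ b := by
    rintro rfl
    have h1 := ha.2.1
    have h2 := hb.2.1
    omega
  have haS : a ∉ S := fun h => by
    have h1 := (hS a h).2.1
    have h2 := ha.2.1
    omega
  have hbS : b ∉ S := fun h => by
    have h1 := (hS b h).2.2
    have h2 := hb.2.2
    omega
  have haS' : a ∉ insert b S := by
    rw [mem_insert, not_or]
    exact ⟨hab, haS⟩
  obtain ⟨S', hS'⟩ : ∃ S', S' = insert a (insert b S) := ⟨_, rfl⟩
  have hpr : ∀ q ∈ S', q.Prime ∧ q % 4 = 1 ∧ q ≠ 7 := by
    intro q hq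
    rw [hS', mem_insert, mem_insert] at hq
    rcases hq with rfl | rfl | hq
    · exact ⟨ha.1, by have := ha.2.1; omega, by have := ha.2.1; omega⟩
    · exact ⟨hb.1, by have := hb.2.1; omega, by have := hb.2.1; omega⟩
    · exact ⟨(hS q hq).1, by have := (hS q hq).2.1; omega, by have := (hS q hq).2.1; omega⟩
  have hSp : ∀ q ∈ S', q.Prime := fun q hq => (hpr q hq).1
  have hM0 : (∏ q ∈ S', q) ≠ 0 := Finset.prod_ne_zero_iff.2 fun q hq => (hSp q hq).ne_zero
  haveI : NeZero (∏ q ∈ S', q) := ⟨hM0⟩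
  have haM : a ∣ ∏ q ∈ S', q := dpm (by rw [hS']; simp)
  have hbM : b ∣ ∏ q ∈ S', q := dpm (by rw [hS']; simp)
  have H : HypS (∏ q ∈ S', q) a b := by
    refine ⟨squarefree_prod hSp, prod_mod4' fun q hq => (hpr q hq).2.1, ?_, ?_, ha.1, hb.1, hab,
      haM, hbM, ha.jac.1, ha.jac.2.1, hb.jac.1, hb.jac.2.1⟩
    · intro q hq hqM
      exact (hpr q (dvd_prod_primes hSp hq hqM)).2.1
    · refine Nat.Coprime.prod_right fun q hq => ?_
      obtain ⟨h1, h2, h3⟩ := hpr q hq
      rw [show (14 : ℕ) = 2 * 7 by norm_num]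
      refine Nat.Coprime.mul_left ((Nat.coprime_primes Nat.prime_two h1).2 (by omega))
        ((Nat.coprime_primes (by norm_num) h1).2 (Ne.symm h3))
  rw [← hS']
  refine ⟨∑ u ∈ HS (KS (∏ q ∈ S', q)) ou 1, sv s u, ?_, ?_⟩
  · rw [AA_units]
    have hcl : ∀ u : (ZMod (∏ q ∈ S', q))ˣ, (∀ q ∈ S', chi q u = 1) ↔ u ∈ KS (∏ q ∈ S', q) := by
      intro u
      rw [mem_KS]
      constructor
      · exact fun h q hq hqM => h q (dvd_prod_primes hSp hq hqM)
      · exact fun h q hq => h q (hSp q hq) (dpm hq)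
    have e0 : (Finset.univ : Finset (ZMod (∏ q ∈ S', q))ˣ).filter (fun u => ∀ q ∈ S', chi q u = 1) =
        (Finset.univ : Finset (ZMod (∏ q ∈ S', q))ˣ).filter (fun u => u ∈ KS (∏ q ∈ S', q)) := by
      ext u
      simp only [mem_filter, mem_univ, true_and]
      exact hcl u
    have e0' : ∑ u ∈ (Finset.univ : Finset (ZMod (∏ q ∈ S', q))ˣ).filter
        (fun u => ∀ q ∈ S', chi q u = (fun _ => (1 : ℤ)) q), sv s u =
        ∑ u ∈ (Finset.univ : Finset (ZMod (∏ q ∈ S', q))ˣ).filter
          (fun u => u ∈ KS (∏ q ∈ S', q)), sv s u := by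
      rw [← e0]
    rw [e0', ← sum_filter_add_sum_filter_not _ (fun u => ou u = 1), two_mul]
    have hK := H.neg
    have hgt := H.gt
    have hM4 := H.m4
    have hodd : OddF (ou : (ZMod (∏ q ∈ S', q))ˣ → ZMod 2) := ou_odd (by omega) (by omega)
    have e1 : ((Finset.univ : Finset (ZMod (∏ q ∈ S', q))ˣ).filter
      (fun u => u ∈ KS (∏ q ∈ S', q))).filter (fun u => ou u = 1) =
      HS (KS (∏ q ∈ S', q)) ou 1 := by
      ext u
      simp only [mem_filter, mem_univ, true_and, mem_HS, inv_one, one_mul]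
    rw [e1]
    congr 1
    refine sum_nbij' (fun u => -u) (fun u => -u) ?_ ?_ ?_ ?_ ?_
    · intro u hu
      simp only [mem_filter, mem_univ, true_and] at hu
      refine mem_HS.2 ⟨?_, ?_⟩
      · rw [inv_one, one_mul]
        exact neg_mem_K hK hu.1
      · rw [hodd]
        have h4 : ∀ y : ZMod 2, ¬ y = 1 → y + 1 = 1 := by decide
        exact h4 _ hu.2
    · intro u hu
      rw [mem_HS, inv_one, one_mul] at hu
      simp only [mem_filter, mem_univ, true_and]
      refine ⟨neg_mem_K hK hu.1, ?_⟩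
      rw [hodd, hu.2]
      decide
    · intro u _
      exact neg_neg u
    · intro u _
      exact neg_neg u
    · intro u _
      exact (sv_neg hs.toSymb u).symm
  · rw [H.par hs ha.1 haM]
    have ha4 : a % 4 = 1 := by have := ha.2.1; omega
    have hb4 : b % 4 = 1 := by have := hb.2.1; omega
    split_ifs with hE
    · refine cnt_two ha.1 ha4 haM hb.1 hb4 hab ?_
      rw [hS', hE, prod_insert (by rw [mem_insert, not_or]; exact ⟨hab, notMem_empty a⟩),
        insert_empty_eq, prod_singleton]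
    · refine cnt_many ha.1 ha4 haM (insert b S) ?_ haS' ?_ ?_
      · intro q hq
        have := hpr q (by rw [hS']; exact mem_insert_of_mem hq)
        exact ⟨this.1, this.2.1⟩
      · rw [hS', prod_insert haS']
      · rw [card_insert_of_notMem hbS]
        have := Finset.card_pos.2 (nonempty_iff_ne_empty.2 hE)
        omega

/-- the parity of the twisted sums -/
theorem sumAB {s : ℚ → ℤ} (hs : Symb2 s (fun q => ap E14 q)) {a b : ℕ} (ha : TypA a) (hb : TypB b)
    {ε : ℤ} (hε : (ε : ZMod 2) = hh a b) (S : Finset ℕ) : (∀ q ∈ S, Inert q) →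
      Qc (S.card + 3) (SS s (∏ q ∈ insert a (insert b S), q) (∏ q ∈ insert a (insert b S), q)) ε := by
  have hab : a ≠ b := by
    rintro rfl
    have h1 := ha.2.1
    have h2 := hb.2.1
    omega
  have hc2 : ∀ x y : ℤ, (x : ZMod 2) = (y : ZMod 2) → (2 : ℤ) ∣ x - y := by
    intro x y h
    have h1 : ((x - y : ℤ) : ZMod 2) = 0 := by
      push_cast
      rw [h, sub_self]
    exact (ZMod.intCast_zmod_eq_zero_iff_dvd _ _).1 h1
  induction S using Finset.strongInduction with
  | H S ih =>
    intro hS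
    have haS : a ∉ S := fun h => by
      have h1 := (hS a h).2.1
      have h2 := ha.2.1
      omega
    have hbS : b ∉ S := fun h => by
      have h1 := (hS b h).2.2
      have h2 := hb.2.2
      omega
    obtain ⟨S', hS'⟩ : ∃ S', S' = insert a (insert b S) := ⟨_, rfl⟩
    have h12 : a ∉ insert b S := by
      rw [Finset.mem_insert, not_or]
      exact ⟨hab, haS⟩
    have hSp : ∀ q ∈ S', q.Prime ∧ ¬ q ∣ 14 := by
      intro q hq
      rw [hS', Finset.mem_insert, Finset.mem_insert] at hq
      have key : ∀ q : ℕ, q.Prime → q % 4 = 1 → q ≠ 7 → q.Prime ∧ ¬ q ∣ 14 := by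
        intro q h1 h2 h3
        refine ⟨h1, fun h => ?_⟩
        rw [show (14 : ℕ) = 2 * 7 by norm_num, h1.dvd_mul] at h
        rcases h with h | h
        · have := (Nat.prime_dvd_prime_iff_eq h1 Nat.prime_two).1 h
          omega
        · exact h3 ((Nat.prime_dvd_prime_iff_eq h1 (by norm_num)).1 h)
      rcases hq with rfl | rfl | hq
      · exact key _ ha.1 (by have := ha.2.1; omega) (by have := ha.2.1; omega)
      · exact key _ hb.1 (by have := hb.2.1; omega) (by have := hb.2.1; omega)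
      · exact key _ (hS q hq).1 (by have := (hS q hq).2.1; omega) (by have := (hS q hq).2.1; omega)
    have hSS' : S ⊆ S' := by
      rw [hS']
      exact (Finset.subset_insert _ _).trans (Finset.subset_insert _ _)
    have hcard : S'.card = S.card + 2 := by
      rw [hS', Finset.card_insert_of_notMem h12, Finset.card_insert_of_notMem hbS]
    have hII : ∀ q ∈ S, isII (fun q => ap E14 q) q := fun q hq =>
      II_facts q (hS q hq).1 (hS q hq).2.1 (hS q hq).2.2
    have h3 := SS_class (s := s) S' (fun q hq => (hSp q hq).1) (fun _ => 1) (fun q _ => Or.inl rfl)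
    obtain ⟨X, hX1, hX2⟩ := class_sum hs ha hb hS
    rw [← hS'] at hX1
    unfold AA at hX1
    rw [hX1, hcard, hS', sum_powerset_two haS hbS hab, ← hS'] at h3
    simp only [prod_const_one, one_mul] at h3
    have hprime : ∀ T ⊆ S, ∀ q ∈ T, q.Prime := fun T hT q hq => (hS q (hT hq)).1
    have hj14 : ∀ T ⊆ S, jacobiSym 14 (∏ q ∈ T, q) = 1 := by
      intro T hT
      rw [jac_prod 14 T (hprime T hT)]
      exact prod_eq_one fun q hq => (hII q (hT hq)).2.2.1
    have hc14 : ∀ U ⊆ S', Nat.Coprime 14 (∏ q ∈ U, q) := by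
      intro U hU
      refine Nat.Coprime.prod_right fun q hq => ?_
      rw [Nat.coprime_comm]
      exact (Nat.Prime.coprime_iff_not_dvd (hSp q (hU hq)).1).2 (hSp q (hU hq)).2
    have hpos : ∀ U ⊆ S', 0 < ∏ q ∈ U, q := fun U hU =>
      prod_pos fun q hq => (hSp q (hU hq)).1.pos
    -- the terms without both of the two primes
    have t1 : Qc (S.card + 3) (∑ T ∈ S.powerset,
        (SS s (∏ q ∈ T, q) (∏ q ∈ S', q) + SS s (∏ q ∈ insert b T, q) (∏ q ∈ S', q) +
          SS s (∏ q ∈ insert a T, q) (∏ q ∈ S', q))) (∑ T ∈ S.powerset, 0) := by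
      refine Qc.sum _ _ _ fun T hT => ?_
      rw [Finset.mem_powerset] at hT
      have hTp := hprime T hT
      have haT : a ∉ T := fun h => haS (hT h)
      have hbT : b ∉ T := fun h => hbS (hT h)
      have hII' : ∀ q ∈ S \ T, isII (fun q => ap E14 q) q := fun q hq => hII q (Finset.mem_sdiff.1 hq).1
      have hcd : (S \ T).card + T.card = S.card := Finset.card_sdiff_add_card_eq_card hT
      have u1 : insert b T ⊆ S' := by
        rw [hS']
        exact (Finset.insert_subset_insert b hT).trans (Finset.subset_insert _ _)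
      have u2 : insert a T ⊆ S' := by
        rw [hS']
        exact Finset.insert_subset_insert a (hT.trans (Finset.subset_insert _ _))
      have z1 : SS s (∏ q ∈ insert b T, q) (∏ q ∈ S', q) = 0 := by
        rw [SS_sub hs.toSymb u1 hSp, SS_zero hs.toSymb (hpos _ u1) (hc14 _ u1), mul_zero]
        rw [prod_insert hbT, jacobiSym.mul_right' _ hb.1.ne_zero (hpos T (hT.trans hSS')).ne',
          hj14 T hT, hb.jac.2.2]
        norm_num
      have z2 : SS s (∏ q ∈ insert a T, q) (∏ q ∈ S', q) = 0 := by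
        rw [SS_sub hs.toSymb u2 hSp, SS_zero hs.toSymb (hpos _ u2) (hc14 _ u2), mul_zero]
        rw [prod_insert haT, jacobiSym.mul_right' _ ha.1.ne_zero (hpos T (hT.trans hSS')).ne',
          hj14 T hT, ha.jac.2.2]
        norm_num
      rw [z1, z2, add_zero, add_zero]
      rw [SS_sub hs.toSymb (hT.trans hSS') hSp]
      have e1 : S' \ T = insert a (insert b (S \ T)) := by
        rw [hS', Finset.insert_sdiff_of_notMem _ haT, Finset.insert_sdiff_of_notMem _ hbT]
      have n2 : b ∉ S \ T := fun h => hbS (Finset.mem_sdiff.1 h).1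
      have n1 : a ∉ insert b (S \ T) := by
        rw [Finset.mem_insert, not_or]
        exact ⟨hab, fun h => haS (Finset.mem_sdiff.1 h).1⟩
      have fourdiv : ∀ p : ℕ, p.Prime → (4 : ℤ) ∣ ap E14 p - 2 → p ∉ T →
          ∃ x : ℤ, ap E14 p - 2 * jacobiSym p (∏ q ∈ T, q) = 4 * x := by
        intro p hp h4 hpT
        have hg : Int.gcd (p : ℤ) ((∏ q ∈ T, q : ℕ) : ℤ) = 1 := by
          rw [Int.gcd_natCast_natCast]
          refine Nat.Coprime.prod_right fun q hq => ?_
          rw [Nat.coprime_primes hp (hTp q hq)]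
          rintro rfl
          exact hpT hq
        obtain ⟨k, hk⟩ := h4
        rcases jacobiSym.eq_one_or_neg_one hg with h1 | h1
        · rw [h1]; exact ⟨k, by linear_combination hk⟩
        · rw [h1]; exact ⟨k + 1, by linear_combination hk⟩
      obtain ⟨xa, hxa⟩ := fourdiv a ha.1 ha.coef haT
      obtain ⟨xb, hxb⟩ := fourdiv b hb.1 hb.coef hbT
      rw [e1, Finset.prod_insert n1, Finset.prod_insert n2]
      have q1 := (fac_V hII' hTp fun q hq => (Finset.mem_sdiff.1 hq).2).qc
      have q2 := (L_inert hs.toSymb T fun q hq => hII q (hT hq)).qc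
      obtain ⟨k, hk⟩ := q1.mul q2
      rw [hcd] at hk
      rw [hxa, hxb]
      refine ⟨xa * xb * (1 * 1 + 2 * k), ?_⟩
      rw [pow_add]
      linear_combination (16 * xa * xb) * hk
    -- the smaller terms with both of the two primes
    have t2 : Qc (S.card + 3) (∑ T ∈ S.powerset.erase S,
        SS s (∏ q ∈ insert a (insert b T), q) (∏ q ∈ S', q)) (∑ T ∈ S.powerset.erase S, ε) := by
      refine Qc.sum _ _ _ fun T hT => ?_
      rw [Finset.mem_erase, Finset.mem_powerset] at hT
      have hTp := hprime T hT.2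
      have haT : a ∉ T := fun h => haS (hT.2 h)
      have hbT : b ∉ T := fun h => hbS (hT.2 h)
      have hII' : ∀ q ∈ S \ T, isII (fun q => ap E14 q) q := fun q hq => hII q (Finset.mem_sdiff.1 hq).1
      have hcd : (S \ T).card + T.card = S.card := Finset.card_sdiff_add_card_eq_card hT.2
      rw [SS_sub hs.toSymb (by
        rw [hS']
        exact Finset.insert_subset_insert a (Finset.insert_subset_insert b hT.2)) hSp]
      have e1 : S' \ insert a (insert b T) = S \ T := by
        rw [hS']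
        ext q
        simp only [Finset.mem_sdiff, Finset.mem_insert, not_or]
        constructor
        · rintro ⟨h6 | h6 | h6, h7, h8, h9⟩
          · exact absurd h6 h7
          · exact absurd h6 h8
          · exact ⟨h6, h9⟩
        · rintro ⟨h6, h7⟩
          exact ⟨Or.inr (Or.inr h6), fun h8 => haS (h8 ▸ h6), fun h8 => hbS (h8 ▸ h6), h7⟩
      rw [e1]
      have q1 := (fac_V (W := insert a (insert b T)) hII' (by
        intro q hq
        rcases Finset.mem_insert.1 hq with rfl | hq
        · exact ha.1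
        · rcases Finset.mem_insert.1 hq with rfl | hq
          · exact hb.1
          · exact hTp q hq) (by
        intro q hq hq2
        rcases Finset.mem_insert.1 hq2 with rfl | hq2
        · exact haS (Finset.mem_sdiff.1 hq).1
        · rcases Finset.mem_insert.1 hq2 with rfl | hq2
          · exact hbS (Finset.mem_sdiff.1 hq).1
          · exact (Finset.mem_sdiff.1 hq).2 hq2)).qc
      have q2 := ih T (Finset.ssubset_iff_subset_ne.2 ⟨hT.2, hT.1⟩) (fun q hq => hS q (hT.2 hq))
      have q5 := q1.mul q2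
      have e2 : (S \ T).card + (T.card + 3) = S.card + 3 := by omega
      rw [e2] at q5
      simpa using q5
    -- conclusion
    rw [← Finset.add_sum_erase S.powerset (fun T =>
        SS s (∏ q ∈ insert a (insert b T), q) (∏ q ∈ S', q)) (Finset.mem_powerset_self S)] at h3
    have t3 : Qc (S.card + 3) ((2 : ℤ) ^ (S.card + 2) * (2 * X)) X := ⟨0, by
      rw [pow_add, pow_add]; ring⟩
    have t4 := t3.add ((t1.add t2).neg)
    have e5 : SS s (∏ q ∈ insert a (insert b S), q) (∏ q ∈ S', q) =
        (2 : ℤ) ^ (S.card + 2) * (2 * X) + -((∑ T ∈ S.powerset,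
        (SS s (∏ q ∈ T, q) (∏ q ∈ S', q) + SS s (∏ q ∈ insert b T, q) (∏ q ∈ S', q) +
          SS s (∏ q ∈ insert a T, q) (∏ q ∈ S', q))) +
        ∑ T ∈ S.powerset.erase S, SS s (∏ q ∈ insert a (insert b T), q) (∏ q ∈ S', q)) := by
      linear_combination h3
    rw [← e5, ← hS'] at t4
    rw [← hS']
    refine t4.congr ?_
    refine hc2 _ _ ?_
    push_cast
    rw [hX2, sum_const_zero, zero_add, sum_const, Finset.card_erase_of_mem (Finset.mem_powerset_self S),
      card_powerset, nsmul_eq_mul, hε]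
    have h20 : (2 : ZMod 2) = 0 := by decide
    split_ifs with hE
    · rw [hE, card_empty, pow_zero]
      simp
    · obtain ⟨k, hk⟩ : ∃ k, S.card = k + 1 :=
        ⟨S.card - 1, by have := Finset.card_pos.2 (nonempty_iff_ne_empty.2 hE); omega⟩
      rw [hk, Nat.cast_sub Nat.one_le_two_pow]
      push_cast
      rw [pow_succ, h20, mul_zero, zero_sub]
      have : (-1 : ZMod 2) = 1 := by decide
      rw [this]
      ring

/-- nonvanishing of the twisted sum -/
theorem sumAB_ne {s : ℚ → ℤ} (hs : Symb2 s (fun q => ap E14 q)) {a b : ℕ} (ha : TypA a)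
    (hb : TypB b) (hj : jacobiSym b a ≠ 1) {S : Finset ℕ} (hS : ∀ q ∈ S, Inert q) :
    SS s (∏ q ∈ insert a (insert b S), q) (∏ q ∈ insert a (insert b S), q) ≠ 0 := by
  have h1 : ((1 : ℤ) : ZMod 2) = hh a b := by
    unfold hh
    rw [if_neg hj]
    norm_num
  obtain ⟨k, hk⟩ := sumAB hs ha hb h1 S hS
  rw [hk]
  refine mul_ne_zero (by positivity) ?_
  omega

end Pool.Agent.NH5.AB
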